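import Pool.Agent.K6.H44.CM.Stm

/-!
# Piece ANA: the series `Ph f` is analytic for `Re s > 1/2`
-/

set_option autoImplicit false

open Filter Topology

namespace Pool.Agent.K6.H44.CM

namespace ANA

lemma bdd (f : ℕ → ℂ) (h : Sml f) :
    ∃ C : ℝ, 0 ≤ C ∧ ∀ n : ℕ, ‖S f (n + 1)‖ ≤ C * ((n : ℝ) + 1) ^ (-(1 / 2) : ℝ) := by
  obtain ⟨C, hC⟩ := h.bddAbove_range
  refine ⟨max C 0, le_max_right _ _, fun n => ?_⟩
  have h1 : Real.sqrt (((n + 1 : ℕ)) : ℝ) * ‖S f (n + 1)‖ ≤ C := hC ⟨n + 1, rfl⟩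
  have h2 : 0 < ((n : ℝ) + 1) := by positivity
  rw [Real.rpow_neg h2.le, ← Real.sqrt_eq_rpow, ← div_eq_mul_inv,
    le_div_iff₀ (Real.sqrt_pos.2 h2)]
  push_cast at h1
  calc _ = _ := mul_comm _ _
    _ ≤ C := h1
    _ ≤ _ := le_max_left _ _

lemma term_bd (hd : S_DIF) (f : ℕ → ℂ) (C : ℝ) (n : ℕ)
    (hb : ‖S f (n + 1)‖ ≤ C * ((n : ℝ) + 1) ^ (-(1 / 2) : ℝ)) (s : ℂ) (hs : 0 ≤ s.re) :
    ‖S f (n + 1) * (((n + 1 : ℕ) : ℂ) ^ (1 - s) - ((n + 2 : ℕ) : ℂ) ^ (1 - s))‖ ≤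
      C * ‖1 - s‖ * ((n : ℝ) + 1) ^ (-(1 / 2) - s.re) := by
  have h1 := hd (n + 1) (1 - s) (Nat.succ_pos n) (by simp; exact hs)
  rw [norm_mul]
  have h2 : ((1 - s).re - 1) = - s.re := by simp
  rw [h2] at h1
  have h3 : (0 : ℝ) < (n : ℝ) + 1 := by positivity
  have h4 : 0 ≤ C * ((n : ℝ) + 1) ^ (-(1 / 2) : ℝ) := le_trans (norm_nonneg _) hb
  calc _ ≤ (C * ((n : ℝ) + 1) ^ (-(1 / 2) : ℝ)) *
        (‖1 - s‖ * ((n + 1 : ℕ) : ℝ) ^ (- s.re)) := by
        apply mul_le_mul hb h1 (norm_nonneg _) h4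
    _ = _ := by
        push_cast
        rw [sub_eq_add_neg (-(1 / 2) : ℝ), Real.rpow_add h3]
        ring

lemma summ (a : ℝ) (ha : 1 < a) : Summable (fun n : ℕ => ((n : ℝ) + 1) ^ (-a)) := by
  have h1 : Summable (fun n : ℕ => (n : ℝ) ^ (-a)) := Real.summable_nat_rpow.2 (by linarith)
  have h2 := (summable_nat_add_iff 1).2 h1
  refine h2.congr fun n => ?_
  push_cast
  rfl

end ANA

theorem t_ANA (h : S_DIF) : S_ANA := by
  intro f hf s0 hs0
  obtain ⟨C, hC, hb⟩ := ANA.bdd f hf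
  have hs0' : 1 / 2 < s0.re := hs0
  set σ : ℝ := (1 / 2 + s0.re) / 2 with hσ
  have hσ1 : 1 / 2 < σ := by rw [hσ]; linarith
  have hσ2 : σ < s0.re := by rw [hσ]; linarith
  set U : Set ℂ := {s : ℂ | σ < s.re} ∩ Metric.ball s0 1 with hU
  have hUo : IsOpen U := (isOpen_lt continuous_const Complex.continuous_re).inter Metric.isOpen_ball
  have hmem : s0 ∈ U := ⟨hσ2, Metric.mem_ball_self one_pos⟩
  have hR : 0 ≤ ‖1 - s0‖ + 1 := by positivity
  have hdiff : DifferentiableOn ℂ (Ph f) U := by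
    apply Complex.differentiableOn_tsum_of_summable_norm
      (u := fun n : ℕ => C * (‖1 - s0‖ + 1) * ((n : ℝ) + 1) ^ (-(1 / 2 + σ)))
      ((ANA.summ (1 / 2 + σ) (by linarith)).mul_left _)
    · intro n
      have hn1 : ((n + 1 : ℕ) : ℂ) ≠ 0 := by exact_mod_cast Nat.succ_ne_zero n
      have hn2 : ((n + 2 : ℕ) : ℂ) ≠ 0 := by exact_mod_cast Nat.succ_ne_zero (n + 1)
      apply DifferentiableOn.mul (differentiableOn_const _)
      apply DifferentiableOn.sub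
      · intro s _
        exact ((differentiableAt_const _).sub differentiableAt_id).const_cpow (Or.inl hn1)
          |>.differentiableWithinAt
      · intro s _
        exact ((differentiableAt_const _).sub differentiableAt_id).const_cpow (Or.inl hn2)
          |>.differentiableWithinAt
    · exact hUo
    · intro n w hw
      have hw1 : σ < w.re := hw.1
      have hw2 : ‖w - s0‖ < 1 := by
        have := hw.2
        rwa [Metric.mem_ball, dist_eq_norm] at this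
      refine (ANA.term_bd h f C n (hb n) w (by linarith)).trans ?_
      have h1 : ‖1 - w‖ ≤ ‖1 - s0‖ + 1 := by
        calc ‖1 - w‖ = ‖(1 - s0) - (w - s0)‖ := by ring_nf
          _ ≤ ‖1 - s0‖ + ‖w - s0‖ := norm_sub_le _ _
          _ ≤ _ := by linarith
      have h2 : ((n : ℝ) + 1) ^ (-(1 / 2) - w.re) ≤ ((n : ℝ) + 1) ^ (-(1 / 2 + σ)) := by
        apply Real.rpow_le_rpow_of_exponent_le
        · have : (0 : ℝ) ≤ n := Nat.cast_nonneg n
          linarith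
        · linarith
      gcongr
  exact (hdiff.differentiableAt (hUo.mem_nhds hmem)).differentiableWithinAt

end Pool.Agent.K6.H44.CM
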