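import Pool.Agent.K6.H44.CM.Stm

/-!
# The elementary bound: `|f n| ≤ 1 / √n` if `f` is completely multiplicative and `√N S f N → 0`
-/

set_option autoImplicit false

open Filter Topology

namespace Pool.Agent.K6.H44.CM

namespace BND

theorem diff (f : ℕ → ℂ) (m : ℕ) : f (m + 1) = S f (m + 1) - S f m := by
  unfold S
  rw [Finset.sum_Icc_succ_top (by omega)]
  ring

theorem pow {f : ℕ → ℂ} (hf : CMu f) {n : ℕ} (hn : 0 < n) (k : ℕ) : f (n ^ k) = f n ^ k := by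
  induction k with
  | zero => simpa using hf.1
  | succ k ih => rw [pow_succ, hf.2 _ _ (pow_pos hn k) hn, ih, pow_succ]

end BND

theorem t_BND : S_BND := by
  intro f hf hs n hn
  obtain ⟨C, hC⟩ := hs.bddAbove_range
  have hC' : ∀ N : ℕ, Real.sqrt (N : ℝ) * ‖S f N‖ ≤ C := fun N => hC ⟨N, rfl⟩
  have hb : ∀ m : ℕ, 1 ≤ m → Real.sqrt ((m + 1 : ℕ) : ℝ) * ‖f (m + 1)‖ ≤ 3 * C := by
    intro m hm
    have h1 : ‖f (m + 1)‖ ≤ ‖S f (m + 1)‖ + ‖S f m‖ := by
      rw [BND.diff f m]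
      exact norm_sub_le _ _
    have h2 : Real.sqrt ((m + 1 : ℕ) : ℝ) ≤ 2 * Real.sqrt (m : ℝ) := by
      have h3 : Real.sqrt ((m + 1 : ℕ) : ℝ) ≤ Real.sqrt (2 ^ 2 * (m : ℝ)) := by
        apply Real.sqrt_le_sqrt
        have : (1 : ℝ) ≤ m := by exact_mod_cast hm
        push_cast
        linarith
      rwa [Real.sqrt_mul (by norm_num), Real.sqrt_sq (by norm_num)] at h3
    have h4 := hC' (m + 1)
    have h5 := hC' m
    have h6 : 0 ≤ Real.sqrt ((m + 1 : ℕ) : ℝ) := Real.sqrt_nonneg _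
    have h7 : 0 ≤ ‖S f m‖ := norm_nonneg _
    calc Real.sqrt ((m + 1 : ℕ) : ℝ) * ‖f (m + 1)‖
        ≤ Real.sqrt ((m + 1 : ℕ) : ℝ) * (‖S f (m + 1)‖ + ‖S f m‖) :=
          mul_le_mul_of_nonneg_left h1 h6
      _ = Real.sqrt ((m + 1 : ℕ) : ℝ) * ‖S f (m + 1)‖ + Real.sqrt ((m + 1 : ℕ) : ℝ) * ‖S f m‖ := by
          ring
      _ ≤ C + 2 * Real.sqrt (m : ℝ) * ‖S f m‖ := add_le_add h4 (mul_le_mul_of_nonneg_right h2 h7)
      _ ≤ 3 * C := by linarith
  rcases Nat.lt_or_ge n 2 with h1 | h2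
  · have : n = 1 := by omega
    subst this
    rw [hf.1]
    simp
  · have hx : ∀ k : ℕ, 1 ≤ k → (Real.sqrt (n : ℝ) * ‖f n‖) ^ k ≤ 3 * C := by
      intro k hk
      have h3 : 2 ≤ n ^ k := h2.trans (Nat.le_self_pow (by omega) n)
      have h4 := hb (n ^ k - 1) (by omega)
      have h5 : n ^ k - 1 + 1 = n ^ k := by omega
      rw [h5, BND.pow hf hn, norm_pow] at h4
      rw [mul_pow]
      have h6 : Real.sqrt ((n ^ k : ℕ) : ℝ) = Real.sqrt (n : ℝ) ^ k := by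
        have h7 : (Real.sqrt (n : ℝ) ^ k) ^ 2 = ((n ^ k : ℕ) : ℝ) := by
          rw [← pow_mul, mul_comm, pow_mul, Real.sq_sqrt (Nat.cast_nonneg n)]
          push_cast
          rfl
        rw [← h7, Real.sqrt_sq (by positivity)]
      rwa [h6] at h4
    have hle : Real.sqrt (n : ℝ) * ‖f n‖ ≤ 1 := by
      by_contra hcon
      push Not at hcon
      obtain ⟨k, hk⟩ := ((tendsto_pow_atTop_atTop_of_one_lt hcon).eventually_gt_atTop
        (3 * C)).and (eventually_ge_atTop 1) |>.exists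
      exact absurd (hx k hk.2) (not_le.mpr hk.1)
    have hpos : 0 < Real.sqrt (n : ℝ) := Real.sqrt_pos.mpr (by exact_mod_cast hn)
    rw [le_div_iff₀ hpos, mul_comm]
    exact hle

end Pool.Agent.K6.H44.CM
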