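import Pool.Agent.K6.H44.CM.Stm

set_option autoImplicit false

open Filter Topology

namespace Pool.Agent.K6.H44.CM

theorem t_DIF : S_DIF := by
  intro m w hm hw
  have hm0 : (0 : ℝ) < m := by exact_mod_cast hm
  have key : ∀ t ∈ Set.Icc (m : ℝ) ((m : ℝ) + 1),
      HasDerivWithinAt (fun t : ℝ => ((t : ℝ) : ℂ) ^ w) (w * (t : ℂ) ^ (w - 1)) (Set.Icc (m : ℝ) ((m : ℝ) + 1)) t := by
    intro t ht
    have ht0 : (0 : ℝ) < t := lt_of_lt_of_le hm0 ht.1
    have h1 : HasDerivAt (fun z : ℂ => z ^ w) (w * (t : ℂ) ^ (w - 1)) (t : ℂ) := by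
      have := (hasDerivAt_id (t : ℂ)).cpow_const (c := w) (Or.inl (by simpa using ht0))
      simpa using this
    exact h1.comp_ofReal.hasDerivWithinAt
  have hb : ∀ t ∈ Set.Icc (m : ℝ) ((m : ℝ) + 1),
      ‖w * (t : ℂ) ^ (w - 1)‖ ≤ ‖w‖ * (m : ℝ) ^ (w.re - 1) := by
    intro t ht
    have ht0 : (0 : ℝ) < t := lt_of_lt_of_le hm0 ht.1
    rw [norm_mul, Complex.norm_cpow_eq_rpow_re_of_pos ht0]
    apply mul_le_mul_of_nonneg_left _ (norm_nonneg _)
    rw [Complex.sub_re, Complex.one_re]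
    exact Real.rpow_le_rpow_of_nonpos hm0 ht.1 (by linarith)
  have h := (convex_Icc (m : ℝ) ((m : ℝ) + 1)).norm_image_sub_le_of_norm_hasDerivWithin_le key hb
    (Set.left_mem_Icc.2 (by linarith)) (Set.right_mem_Icc.2 (by linarith))
  rw [norm_sub_rev]
  have e : ‖(m : ℝ) + 1 - m‖ = 1 := by
    rw [add_sub_cancel_left, norm_one]
  rw [e, mul_one] at h
  push_cast at h ⊢
  exact h

end Pool.Agent.K6.H44.CM
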