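import Pool.Agent.K6.H44.CM.Stm

/-! Piece EQ (helper5): the continuation agrees with the Dirichlet series for `Re s > 3/2`. -/

set_option autoImplicit false

open Filter Topology

namespace Pool.Agent.K6.H44.CM

namespace EQ

theorem S_succ (f : ℕ → ℂ) (N : ℕ) : S f (N + 1) = S f N + f (N + 1) := by
  unfold S
  rw [Finset.sum_Icc_succ_top (by omega)]

theorem abel (f : ℕ → ℂ) (w : ℂ) (N : ℕ) :
    ∑ n ∈ Finset.range N, S f (n + 1) * (((n + 1 : ℕ) : ℂ) ^ w - ((n + 2 : ℕ) : ℂ) ^ w) =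
      ∑ n ∈ Finset.range N, f (n + 1) * ((n + 1 : ℕ) : ℂ) ^ w -
        S f N * ((N + 1 : ℕ) : ℂ) ^ w := by
  induction N with
  | zero => simp [S]
  | succ N ih =>
    rw [Finset.sum_range_succ, ih, Finset.sum_range_succ, S_succ f N]
    ring

theorem S_bdd {f : ℕ → ℂ} (hf : Sml f) : ∃ C : ℝ, 0 ≤ C ∧ ∀ n, ‖S f n‖ ≤ C := by
  obtain ⟨C, hC⟩ := hf.bddAbove_range
  refine ⟨max C 0, le_max_right _ _, fun n => ?_⟩
  rcases Nat.eq_zero_or_pos n with rfl | hn
  · simp [S]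
  · have h1 : Real.sqrt (n : ℝ) * ‖S f n‖ ≤ C := hC ⟨n, rfl⟩
    have h2 : (1 : ℝ) ≤ Real.sqrt n := by
      rw [Real.one_le_sqrt]
      exact_mod_cast hn
    refine le_trans ?_ (h1.trans (le_max_left _ _))
    nlinarith [norm_nonneg (S f n)]

end EQ

open EQ in
theorem t_EQ (hD : S_DIF) : S_EQ := by
  intro f hf hB s hs
  obtain ⟨C, hC0, hC⟩ := S_bdd hf
  have hsum : LSeriesSummable (hh f) s := by
    refine LSeriesSummable_of_le_const_mul_rpow (x := 3 / 2) hs ⟨1, fun n hn => ?_⟩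
    have hn0 : 0 < n := Nat.pos_of_ne_zero hn
    have hn' : (0 : ℝ) < n := by exact_mod_cast hn0
    unfold hh
    rw [norm_mul, Complex.norm_natCast, one_mul]
    have h1 := hB n hn0
    calc (n : ℝ) * ‖f n‖ ≤ n * (1 / Real.sqrt n) := mul_le_mul_of_nonneg_left h1 hn'.le
      _ = (n : ℝ) ^ ((3 : ℝ) / 2 - 1) := by
        rw [show (3 : ℝ) / 2 - 1 = 1 / 2 by norm_num, ← Real.sqrt_eq_rpow]
        rw [mul_one_div, div_eq_iff (Real.sqrt_pos.2 hn').ne', Real.mul_self_sqrt hn'.le]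
  refine ⟨hsum, ?_⟩
  -- the terms of the Dirichlet series
  have hterm : ∀ n : ℕ, LSeries.term (hh f) s (n + 1) =
      f (n + 1) * ((n + 1 : ℕ) : ℂ) ^ (1 - s) := by
    intro n
    have h0 : ((n + 1 : ℕ) : ℂ) ≠ 0 := by exact_mod_cast Nat.succ_ne_zero n
    rw [LSeries.term_of_ne_zero (Nat.succ_ne_zero n), hh, Complex.cpow_sub _ _ h0,
      Complex.cpow_one]
    ring
  have hpart : Tendsto (fun N : ℕ => ∑ n ∈ Finset.range N,
      f (n + 1) * ((n + 1 : ℕ) : ℂ) ^ (1 - s)) atTop (𝓝 (LSeries (hh f) s)) := by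
    have h1 : Tendsto (fun N : ℕ => ∑ n ∈ Finset.range (N + 1), LSeries.term (hh f) s n) atTop
        (𝓝 (LSeries (hh f) s)) :=
      (tendsto_add_atTop_iff_nat 1).2 (Summable.hasSum hsum).tendsto_sum_nat
    refine h1.congr fun N => ?_
    rw [Finset.sum_range_succ']
    rw [LSeries.term_zero, add_zero]
    exact Finset.sum_congr rfl fun n _ => hterm n
  -- the boundary term
  have hre : (1 - s).re < 0 := by
    rw [Complex.sub_re, Complex.one_re]; linarith
  have hnorm : ∀ n : ℕ, ‖((n + 1 : ℕ) : ℂ) ^ (1 - s)‖ = ((n + 1 : ℕ) : ℝ) ^ (1 - s).re := by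
    intro n
    exact Complex.norm_natCast_cpow_of_pos (Nat.succ_pos n) _
  have hbd : Tendsto (fun N : ℕ => S f N * ((N + 1 : ℕ) : ℂ) ^ (1 - s)) atTop (𝓝 0) := by
    rw [tendsto_zero_iff_norm_tendsto_zero]
    have h2 : Tendsto (fun N : ℕ => C * ((N + 1 : ℕ) : ℝ) ^ (1 - s).re) atTop (𝓝 0) := by
      have h3 : Tendsto (fun N : ℕ => ((N + 1 : ℕ) : ℝ) ^ (-(-(1 - s).re))) atTop (𝓝 0) :=
        (tendsto_rpow_neg_atTop (by linarith)).comp
          (tendsto_natCast_atTop_atTop.comp (tendsto_add_atTop_nat 1))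
      rw [neg_neg] at h3
      simpa using h3.const_mul C
    refine squeeze_zero (fun _ => norm_nonneg _) (fun N => ?_) h2
    rw [norm_mul, hnorm]
    exact mul_le_mul_of_nonneg_right (hC N) (Real.rpow_nonneg (by positivity) _)
  have hlim : Tendsto (fun N : ℕ => ∑ n ∈ Finset.range N,
      S f (n + 1) * (((n + 1 : ℕ) : ℂ) ^ (1 - s) - ((n + 2 : ℕ) : ℂ) ^ (1 - s))) atTop
      (𝓝 (LSeries (hh f) s)) := by
    have h4 := hpart.sub hbd
    rw [sub_zero] at h4
    refine h4.congr fun N => ?_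
    rw [abel]
  -- summability of the terms of the continuation
  have hS : Summable fun n : ℕ =>
      S f (n + 1) * (((n + 1 : ℕ) : ℂ) ^ (1 - s) - ((n + 2 : ℕ) : ℂ) ^ (1 - s)) := by
    have h5 : Summable fun n : ℕ => (C * ‖1 - s‖) * ((n + 1 : ℕ) : ℝ) ^ (-(3 / 2 : ℝ)) := by
      refine Summable.mul_left _ ?_
      have h6 : Summable fun n : ℕ => ((n : ℕ) : ℝ) ^ (-(3 / 2 : ℝ)) :=
        Real.summable_nat_rpow.2 (by norm_num)
      exact (summable_nat_add_iff 1).2 h6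
    refine Summable.of_norm_bounded h5 fun n => ?_
    rw [norm_mul, mul_assoc]
    refine mul_le_mul (hC _) ?_ (norm_nonneg _) hC0
    refine (hD (n + 1) (1 - s) (Nat.succ_pos n) (by linarith)).trans ?_
    refine mul_le_mul_of_nonneg_left ?_ (norm_nonneg _)
    refine Real.rpow_le_rpow_of_exponent_le ?_ ?_
    · exact_mod_cast Nat.succ_le_succ (Nat.zero_le n)
    · rw [Complex.sub_re, Complex.one_re]; linarith
  exact tendsto_nhds_unique hS.hasSum.tendsto_sum_nat hlim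

end Pool.Agent.K6.H44.CM
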