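import Pool.Agent.K6.H44.CM.Stm

/-!
Piece EU1 (statement and proof idea by helper44; written by helper78): the Euler product over the
smooth numbers.
-/

set_option autoImplicit false

open Filter Topology

namespace Pool.Agent.K6.H44.CM

namespace EU1

/-- `n ↦ u n * n ^ (-s)` as a monoid homomorphism -/
noncomputable def hom (u : ℕ → ℂ) (s : ℝ) (h1 : u 1 = 1)
    (hm : ∀ m n : ℕ, 0 < m → 0 < n → u (m * n) = u m * u n) : ℕ →* ℂ where
  toFun n := if n = 0 then 0 else u n * (n : ℂ) ^ (-(s : ℂ))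
  map_one' := by simp [h1]
  map_mul' := by
    intro m n
    rcases Nat.eq_zero_or_pos m with rfl | hm0
    · simp
    rcases Nat.eq_zero_or_pos n with rfl | hn0
    · simp
    have hmn : m * n ≠ 0 := (Nat.mul_pos hm0 hn0).ne'
    rw [if_neg hmn, if_neg hm0.ne', if_neg hn0.ne', hm m n hm0 hn0, Nat.cast_mul,
      Complex.natCast_mul_natCast_cpow]
    ring

end EU1

open EU1 in
theorem t_EU1 : S_EU1 := by
  classical
  intro u s h1 hm hp N
  have hlt : ∀ {p : ℕ}, p.Prime → ‖hom u s h1 hm p‖ < 1 := by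
    intro p hpp
    have hp0 : (0 : ℝ) < p := by exact_mod_cast hpp.pos
    change ‖if p = 0 then 0 else u p * (p : ℂ) ^ (-(s : ℂ))‖ < 1
    rw [if_neg hpp.ne_zero, norm_mul, Complex.norm_natCast_cpow_of_pos hpp.pos]
    simp only [Complex.neg_re, Complex.ofReal_re]
    rw [Real.rpow_neg hp0.le, ← div_eq_mul_inv, div_lt_one (Real.rpow_pos_of_pos hp0 s)]
    exact hp p hpp
  obtain ⟨hsum, hhas⟩ :=
    EulerProduct.summable_and_hasSum_smoothNumbers_prod_primesBelow_geometric hlt N
  have hterm : LSeries.term (sm N u) (s : ℂ) =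
      Set.indicator (N.smoothNumbers : Set ℕ) (fun n => hom u s h1 hm n) := by
    funext n
    rcases Nat.eq_zero_or_pos n with rfl | hn
    · rw [LSeries.term_zero]
      have : (0 : ℕ) ∉ N.smoothNumbers := fun h => Nat.ne_zero_of_mem_smoothNumbers h rfl
      rw [Set.indicator_of_notMem this]
    · rw [LSeries.term_of_ne_zero hn.ne']
      by_cases hmem : n ∈ N.smoothNumbers
      · rw [Set.indicator_of_mem hmem]
        change sm N u n / (n : ℂ) ^ (s : ℂ) = if n = 0 then 0 else u n * (n : ℂ) ^ (-(s : ℂ))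
        rw [if_neg hn.ne', Complex.cpow_neg, sm, if_pos hmem, div_eq_mul_inv]
      · rw [Set.indicator_of_notMem hmem, sm, if_neg hmem, zero_div]
  have hhas' : HasSum (LSeries.term (sm N u) (s : ℂ))
      (∏ p ∈ N.primesBelow, (1 - hom u s h1 hm p)⁻¹) := by
    rw [hterm]
    exact hasSum_subtype_iff_indicator.mp hhas
  refine ⟨hhas'.summable, ?_⟩
  rw [LSeries, hhas'.tsum_eq]
  refine Finset.prod_congr rfl fun p hp' => ?_
  have hpp := Nat.prime_of_mem_primesBelow hp'
  change (1 - if p = 0 then 0 else u p * (p : ℂ) ^ (-(s : ℂ)))⁻¹ = _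
  rw [if_neg hpp.ne_zero]

end Pool.Agent.K6.H44.CM
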