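import Pool.Agent.K6.H44.CM.Stm

/-!
# Piece EU2 (helper93 for helper44)
-/

set_option autoImplicit false

open Filter Topology

namespace Pool.Agent.K6.H44.CM

namespace EU2P

theorem sm_conv (N : ℕ) (u v : ℕ → ℂ) :
    LSeries.convolution (sm N u) (sm N v) = sm N (LSeries.convolution u v) := by
  funext n
  rw [LSeries.convolution_def, LSeries.convolution_def]
  unfold sm
  by_cases hn : n ∈ N.smoothNumbers
  · rw [if_pos hn]
    refine Finset.sum_congr rfl fun p hp => ?_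
    obtain ⟨hp1, hp2⟩ := Nat.mem_divisorsAntidiagonal.1 hp
    rw [if_pos (Nat.mem_smoothNumbers_of_dvd hn ⟨p.2, hp1.symm⟩),
      if_pos (Nat.mem_smoothNumbers_of_dvd hn ⟨p.1, by rw [← hp1, mul_comm]⟩)]
  · rw [if_neg hn]
    refine Finset.sum_eq_zero fun p hp => ?_
    obtain ⟨hp1, hp2⟩ := Nat.mem_divisorsAntidiagonal.1 hp
    by_cases h1 : p.1 ∈ N.smoothNumbers
    · by_cases h2 : p.2 ∈ N.smoothNumbers
      · exact absurd (hp1 ▸ Nat.mul_mem_smoothNumbers h1 h2) hn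
      · rw [if_neg h2, mul_zero]
    · rw [if_neg h1, zero_mul]

theorem term_re (a : ℕ → ℂ) (s : ℝ) (n : ℕ) :
    (LSeries.term a (s : ℂ) n).re = if n = 0 then 0 else (a n).re / (n : ℝ) ^ s := by
  by_cases hn : n = 0
  · rw [if_pos hn, hn, LSeries.term_zero, Complex.zero_re]
  · rw [if_neg hn, LSeries.term_of_ne_zero hn]
    have : ((n : ℂ) ^ (s : ℂ)) = (((n : ℝ) ^ s : ℝ) : ℂ) := by
      rw [Complex.ofReal_cpow (Nat.cast_nonneg n)]
      norm_cast
    rw [this, Complex.div_ofReal_re]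

theorem term_nonneg (a : ℕ → ℂ) (s : ℝ) (n : ℕ) (h : 0 ≤ (a n).re) :
    0 ≤ (LSeries.term a (s : ℂ) n).re := by
  rw [term_re]
  split_ifs
  · exact le_rfl
  · exact div_nonneg h (Real.rpow_nonneg (Nat.cast_nonneg n) s)

theorem sm_re_nonneg (P : ℕ) (a : ℕ → ℂ) (h : ∀ n, 0 ≤ (a n).re) (n : ℕ) :
    0 ≤ (sm P a n).re := by
  unfold sm
  split_ifs
  · exact h n
  · exact le_rfl

theorem sm_re_le (P : ℕ) (a : ℕ → ℂ) (h : ∀ n, 0 ≤ (a n).re) (n : ℕ) :
    (sm P a n).re ≤ (a n).re := by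
  unfold sm
  split_ifs
  · exact le_rfl
  · exact h n

/-- the smooth part is at most the bound -/
theorem upper (P : ℕ) (a : ℕ → ℂ) (h : ∀ n, 0 ≤ (a n).re) (s B : ℝ)
    (hB : ∀ T : Finset ℕ, ∑ n ∈ T, (LSeries.term a (s : ℂ) n).re ≤ B)
    (hs : LSeriesSummable (sm P a) (s : ℂ)) : (LSeries (sm P a) (s : ℂ)).re ≤ B := by
  unfold LSeries
  rw [Complex.re_tsum hs]
  have hs' : Summable fun n => (LSeries.term (sm P a) (s : ℂ) n).re := Complex.reCLM.summable hs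
  refine hs'.tsum_le_of_sum_le fun T => ?_
  refine le_trans (Finset.sum_le_sum fun n _ => ?_) (hB T)
  rw [term_re, term_re]
  split_ifs
  · exact le_rfl
  · exact div_le_div_of_nonneg_right (sm_re_le P a h n) (Real.rpow_nonneg (Nat.cast_nonneg n) s)

/-- the partial sums of zeta -/
theorem lower (N : ℕ) (s : ℝ)
    (hs : LSeriesSummable (sm (N + 1) 1) (s : ℂ)) :
    ∑ n ∈ Finset.Icc 1 N, (n : ℝ) ^ (-s) ≤ (LSeries (sm (N + 1) 1) (s : ℂ)).re := by
  unfold LSeries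
  rw [Complex.re_tsum hs]
  have hs' : Summable fun n => (LSeries.term (sm (N + 1) 1) (s : ℂ) n).re :=
    Complex.reCLM.summable hs
  refine le_trans (le_of_eq ?_) (hs'.sum_le_tsum (Finset.Icc 1 N) fun n _ => ?_)
  · refine Finset.sum_congr rfl fun n hn => ?_
    obtain ⟨h1, h2⟩ := Finset.mem_Icc.1 hn
    rw [term_re, if_neg (by omega)]
    have hsm : sm (N + 1) 1 n = 1 := by
      unfold sm
      rw [if_pos (Nat.mem_smoothNumbers_of_lt (by omega) (by omega)), Pi.one_apply]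
    rw [hsm, Complex.one_re, Real.rpow_neg (Nat.cast_nonneg n), one_div]
  · exact term_nonneg _ _ _ (sm_re_nonneg _ _ (fun n => by simp) n)

/-- the local factor -/
theorem factor_eq (x : ℝ) (h : ℂ) :
    (1 - 1 * (x : ℂ))⁻¹ * (1 - 1 * (x : ℂ))⁻¹ *
      ((1 - h * x)⁻¹ * (1 - (starRingEnd ℂ) h * x)⁻¹) =
      (((((1 - x) ^ 2 * ‖1 - h * x‖ ^ 2)⁻¹ : ℝ)) : ℂ) := by
  have h1 : (1 - h * x) * (1 - (starRingEnd ℂ) h * x) = ((‖1 - h * x‖ ^ 2 : ℝ) : ℂ) := by
    have : (1 - (starRingEnd ℂ) h * x) = (starRingEnd ℂ) (1 - h * x) := by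
      rw [map_sub, map_mul, map_one, Complex.conj_ofReal]
    rw [this, Complex.mul_conj, Complex.normSq_eq_norm_sq]
  rw [← mul_inv, ← mul_inv, ← mul_inv, h1]
  push_cast
  ring_nf

theorem factor_le (x : ℝ) (h : ℂ) (hx : 0 < x) (hx1 : x < 1) (hh1 : ‖h‖ * x < 1)
    (hc : ‖h‖ ≤ 1 ∨ (h.im = 0 ∧ 0 ≤ h.re)) :
    ((1 - x ^ 2)⁻¹) ^ 2 ≤ ((1 - x) ^ 2 * ‖1 - h * x‖ ^ 2)⁻¹ := by
  have hn : ‖h * (x : ℂ)‖ = ‖h‖ * x := by
    rw [norm_mul, Complex.norm_real, Real.norm_of_nonneg hx.le]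
  have hpos : 0 < ‖1 - h * x‖ := by
    rw [norm_pos_iff]
    intro h0
    have : (1 : ℂ) = h * x := sub_eq_zero.1 h0
    have h2 : ‖(1 : ℂ)‖ = ‖h‖ * x := by rw [this, hn]
    rw [norm_one] at h2
    linarith
  have hle : ‖1 - h * x‖ ≤ 1 + x := by
    rcases hc with hc | ⟨h1, h2⟩
    · calc ‖1 - h * x‖ ≤ ‖(1 : ℂ)‖ + ‖h * x‖ := norm_sub_le _ _
        _ = 1 + ‖h‖ * x := by rw [norm_one, hn]
        _ ≤ 1 + x := by nlinarith
    · have e : h = ((h.re : ℝ) : ℂ) := Complex.ext rfl (by rw [h1, Complex.ofReal_im])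
      have hnr : ‖h‖ = h.re := by
        rw [e, Complex.norm_real, Real.norm_of_nonneg h2, Complex.ofReal_re]
      rw [hnr] at hh1
      rw [e, ← Complex.ofReal_mul, ← Complex.ofReal_one, ← Complex.ofReal_sub, Complex.norm_real,
        Real.norm_of_nonneg (by linarith)]
      nlinarith [mul_nonneg h2 hx.le]
  have hx2 : 0 < 1 - x ^ 2 := by nlinarith
  rw [inv_pow]
  apply inv_anti₀
  · have : 0 < 1 - x := by linarith
    positivity
  · calc (1 - x) ^ 2 * ‖1 - h * x‖ ^ 2 ≤ (1 - x) ^ 2 * (1 + x) ^ 2 :=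
          mul_le_mul_of_nonneg_left (pow_le_pow_left₀ (norm_nonneg _) hle 2) (sq_nonneg _)
      _ = (1 - x ^ 2) ^ 2 := by ring

end EU2P

open EU2P in
/-- piece EU2 -/
theorem t_EU2 (h : S_EU1) : S_EU2 := by
  intro f hf hbd hpc hnn s hs B hB N
  have hs0 : 0 < s := by linarith
  -- the three series
  have b1 : ∀ p : ℕ, p.Prime → ‖hh f p‖ < (p : ℝ) ^ s := by
    intro p hp
    have hp1 : (1 : ℝ) < p := by exact_mod_cast hp.one_lt
    have hp0 : (0 : ℝ) < p := by linarith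
    unfold hh
    rw [norm_mul, Complex.norm_natCast]
    calc (p : ℝ) * ‖f p‖ ≤ p * (1 / Real.sqrt p) :=
          mul_le_mul_of_nonneg_left (hbd p hp.pos) hp0.le
      _ = (p : ℝ) ^ (1 / 2 : ℝ) := by
          rw [mul_one_div, ← Real.sqrt_eq_rpow, Real.div_sqrt]
      _ < (p : ℝ) ^ s := Real.rpow_lt_rpow_of_exponent_lt hp1 hs
  have b2 : ∀ p : ℕ, hh (cj f) p = (starRingEnd ℂ) (hh f p) := by
    intro p
    unfold hh cj
    rw [map_mul, Complex.conj_natCast]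
  have m1 : ∀ m n : ℕ, 0 < m → 0 < n → hh f (m * n) = hh f m * hh f n := by
    intro m n hm hn
    unfold hh
    rw [hf.2 m n hm hn]
    push_cast
    ring
  have e1 := h (hh f) s (by unfold hh; rw [hf.1]; norm_num) m1 b1 (N + 1)
  have e2 := h (hh (cj f)) s (by rw [b2]; unfold hh; rw [hf.1]; norm_num)
    (fun m n hm hn => by rw [b2, b2, b2, m1 m n hm hn, map_mul])
    (fun p hp => by rw [b2, Complex.norm_conj]; exact b1 p hp) (N + 1)
  have e0 := h (1 : ℕ → ℂ) s rfl (fun _ _ _ _ => by simp)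
    (fun p hp => by
      rw [Pi.one_apply, norm_one]
      exact Real.one_lt_rpow (by exact_mod_cast hp.one_lt) hs0) (N + 1)
  have e3 := h (1 : ℕ → ℂ) (2 * s) rfl (fun _ _ _ _ => by simp)
    (fun p hp => by
      rw [Pi.one_apply, norm_one]
      exact Real.one_lt_rpow (by exact_mod_cast hp.one_lt) (by linarith)) (N + 1)
  have xc : ∀ (p : ℕ) (t : ℝ), (p : ℂ) ^ (-(t : ℂ)) = (((p : ℝ) ^ (-t) : ℝ) : ℂ) := by
    intro p t
    rw [Complex.ofReal_cpow (Nat.cast_nonneg p)]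
    norm_cast
  have sumA : LSeriesSummable (sm (N + 1) (aa f)) (s : ℂ) := by
    unfold aa
    rw [← sm_conv, ← sm_conv, ← sm_conv]
    exact (e0.1.convolution e0.1).convolution (e1.1.convolution e2.1)
  have valA : LSeries (sm (N + 1) (aa f)) (s : ℂ) =
      ((∏ p ∈ Nat.primesBelow (N + 1),
        ((1 - (p : ℝ) ^ (-s)) ^ 2 * ‖1 - hh f p * (((p : ℝ) ^ (-s) : ℝ) : ℂ)‖ ^ 2)⁻¹ : ℝ) : ℂ) := by
    unfold aa
    rw [← sm_conv, ← sm_conv, ← sm_conv,
      LSeries_convolution' (e0.1.convolution e0.1) (e1.1.convolution e2.1),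
      LSeries_convolution' e0.1 e0.1, LSeries_convolution' e1.1 e2.1, e0.2, e1.2, e2.2,
      ← Finset.prod_mul_distrib, ← Finset.prod_mul_distrib, ← Finset.prod_mul_distrib,
      Complex.ofReal_prod]
    refine Finset.prod_congr rfl fun p _ => ?_
    rw [xc, b2, Pi.one_apply]
    exact factor_eq _ _
  have hup := upper (N + 1) (aa f) (fun n => (hnn n).1) s B hB sumA
  rw [valA, Complex.ofReal_re] at hup
  have e3' : LSeries (sm (N + 1) 1) ((2 * s : ℝ) : ℂ) =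
      ((∏ p ∈ Nat.primesBelow (N + 1), (1 - ((p : ℝ) ^ (-s)) ^ 2)⁻¹ : ℝ) : ℂ) := by
    rw [e3.2, Complex.ofReal_prod]
    refine Finset.prod_congr rfl fun p hp => ?_
    rw [xc, Pi.one_apply, one_mul]
    have : (p : ℝ) ^ (-(2 * s)) = ((p : ℝ) ^ (-s)) ^ 2 := by
      rw [← Real.rpow_natCast, ← Real.rpow_mul (Nat.cast_nonneg p)]
      congr 1
      push_cast
      ring
    rw [this]
    push_cast
    rfl
  have hlo := lower N (2 * s) e3.1
  rw [e3', Complex.ofReal_re] at hlo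
  refine le_trans (le_trans (pow_le_pow_left₀ ?_ hlo 2) ?_) hup
  · exact Finset.sum_nonneg fun n _ => Real.rpow_nonneg (Nat.cast_nonneg n) _
  · rw [← Finset.prod_pow]
    refine Finset.prod_le_prod (fun p _ => sq_nonneg _) fun p hp => ?_
    have hpp : p.Prime := (Nat.mem_primesBelow.1 hp).2
    have hp1 : (1 : ℝ) < p := by exact_mod_cast hpp.one_lt
    have hp0 : (0 : ℝ) < p := by linarith
    have hx0 : 0 < (p : ℝ) ^ (-s) := Real.rpow_pos_of_pos hp0 _
    have hx1 : (p : ℝ) ^ (-s) < 1 := Real.rpow_lt_one_of_one_lt_of_neg hp1 (by linarith)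
    refine factor_le _ _ hx0 hx1 ?_ ?_
    · rw [Real.rpow_neg hp0.le, ← div_eq_mul_inv, div_lt_one (Real.rpow_pos_of_pos hp0 _)]
      exact b1 p hpp
    · rcases hpc p hpp with h1 | ⟨h1, h2⟩
      · left
        unfold hh
        rw [norm_mul, Complex.norm_natCast]
        calc (p : ℝ) * ‖f p‖ ≤ p * (1 / p) := mul_le_mul_of_nonneg_left h1 hp0.le
          _ = 1 := by field_simp
      · right
        unfold hh
        constructor
        · rw [Complex.mul_im, h1, Complex.natCast_im]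
          ring
        · rw [Complex.mul_re, Complex.natCast_re, Complex.natCast_im, zero_mul, sub_zero]
          exact mul_nonneg hp0.le h2

end Pool.Agent.K6.H44.CM
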