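import Pool.Agent.K6.H44.CM.Stm

/-! Piece GEN (helper5): a bound for all completely multiplicative functions with sum zero. -/

set_option autoImplicit false

open Filter Topology

namespace Pool.Agent.K6.H44.CM

namespace GEN

/-- A power growing faster than `C q^k` contradicts the bound. -/
theorem le_of_pow_le {x q C : ℝ} (hq : 0 < q) {k0 : ℕ}
    (h : ∀ k : ℕ, k0 ≤ k → x ^ k ≤ C * q ^ k) : x ≤ q := by
  by_contra hc
  push Not at hc
  have h1 : 1 < x / q := by rwa [one_lt_div hq]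
  have h2 := tendsto_pow_atTop_atTop_of_one_lt h1
  obtain ⟨k1, hk1⟩ := (h2.eventually_gt_atTop C).exists_forall_of_atTop
  have h3 := hk1 (max k0 k1) (le_max_right _ _)
  have h4 := h (max k0 k1) (le_max_left _ _)
  rw [div_pow, lt_div_iff₀ (by positivity)] at h3
  linarith

theorem f_pow {f : ℕ → ℂ} (h1 : f 1 = 1)
    (hm : ∀ m n : ℕ, 0 < m → 0 < n → f (m * n) = f m * f n) {p : ℕ} (hp : 0 < p) (k : ℕ) :
    f (p ^ k) = f p ^ k := by
  induction k with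
  | zero => simpa using h1
  | succ k ih => rw [pow_succ, hm _ _ (pow_pos hp k) hp, ih, pow_succ]

end GEN

open GEN in
theorem t_GEN (h : S_MAIN) : S_GEN := by
  intro f h1 hmul hsum
  by_contra hcon
  push Not at hcon
  -- the bound at the primes, for every `δ`
  have key : ∀ p : ℕ, p.Prime → ∀ δ : ℝ, 0 < δ → δ < 1 → ‖f p‖ ≤ (p : ℝ) ^ (-1 + δ) := by
    intro p hp δ hδ hδ1
    obtain ⟨C, M, hC⟩ := hcon δ hδ
    have hp0 : (0 : ℝ) < p := by exact_mod_cast hp.pos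
    refine le_of_pow_le (C := 3 * |C|) (k0 := M + 1) (Real.rpow_pos_of_pos hp0 _)
      fun k hk => ?_
    have hpk : k < p ^ k := Nat.lt_pow_self hp.one_lt
    have hpk2 : 2 ≤ p ^ k := by
      have : 1 ≤ k := by omega
      omega
    obtain ⟨N, hN⟩ : ∃ N, p ^ k = N + 1 := ⟨p ^ k - 1, by omega⟩
    have hN0 : (0 : ℝ) < N := by
      have : 0 < N := by omega
      exact_mod_cast this
    have e1 : f (p ^ k) = ∑ n ∈ Finset.Icc 1 (N + 1), f n - ∑ n ∈ Finset.Icc 1 N, f n := by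
      rw [Finset.sum_Icc_succ_top (by omega), hN]
      ring
    have b1 := hC (N + 1) (by omega) (by omega)
    have b2 := hC N (by omega) (by omega)
    have c1 : ((N + 1 : ℕ) : ℝ) ^ (-1 + δ) = ((p : ℝ) ^ (-1 + δ)) ^ k := by
      rw [← hN, Nat.cast_pow, ← Real.rpow_natCast, ← Real.rpow_natCast, ← Real.rpow_mul hp0.le,
        ← Real.rpow_mul hp0.le, mul_comm]
    have c2 : (N : ℝ) ^ (-1 + δ) ≤ 2 * ((N + 1 : ℕ) : ℝ) ^ (-1 + δ) := by
      have d1 : ((N + 1 : ℕ) : ℝ) / 2 ≤ N := by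
        push_cast
        have : (1 : ℝ) ≤ N := by
          have : 1 ≤ N := by omega
          exact_mod_cast this
        linarith
      have d2 : (N : ℝ) ^ (-1 + δ) ≤ (((N + 1 : ℕ) : ℝ) / 2) ^ (-1 + δ) :=
        Real.rpow_le_rpow_of_nonpos (by positivity) d1 (by linarith)
      refine d2.trans ?_
      rw [Real.div_rpow (by positivity) (by norm_num), div_eq_mul_inv, mul_comm]
      refine mul_le_mul_of_nonneg_right ?_ (Real.rpow_nonneg (by positivity) _)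
      rw [← Real.rpow_neg (by norm_num)]
      calc (2 : ℝ) ^ (-(-1 + δ)) ≤ (2 : ℝ) ^ (1 : ℝ) :=
            Real.rpow_le_rpow_of_exponent_le (by norm_num) (by linarith)
        _ = 2 := Real.rpow_one 2
    have P1 : 0 ≤ ((N + 1 : ℕ) : ℝ) ^ (-1 + δ) := Real.rpow_nonneg (by positivity) _
    have P2 : 0 ≤ (N : ℝ) ^ (-1 + δ) := Real.rpow_nonneg (by positivity) _
    calc ‖f p‖ ^ k = ‖f (p ^ k)‖ := by rw [f_pow h1 hmul hp.pos, norm_pow]
      _ ≤ ‖∑ n ∈ Finset.Icc 1 (N + 1), f n‖ + ‖∑ n ∈ Finset.Icc 1 N, f n‖ := by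
        rw [e1]; exact norm_sub_le _ _
      _ ≤ C * ((N + 1 : ℕ) : ℝ) ^ (-1 + δ) + C * (N : ℝ) ^ (-1 + δ) := add_le_add b1 b2
      _ ≤ |C| * ((N + 1 : ℕ) : ℝ) ^ (-1 + δ) + |C| * (2 * ((N + 1 : ℕ) : ℝ) ^ (-1 + δ)) := by
        refine add_le_add (mul_le_mul_of_nonneg_right (le_abs_self C) P1) ?_
        exact (mul_le_mul_of_nonneg_right (le_abs_self C) P2).trans
          (mul_le_mul_of_nonneg_left c2 (abs_nonneg C))
      _ = 3 * |C| * ((p : ℝ) ^ (-1 + δ)) ^ k := by rw [← c1]; ring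
  have key2 : ∀ p : ℕ, p.Prime → ‖f p‖ ≤ 1 / (p : ℝ) := by
    intro p hp
    have hp0 : (0 : ℝ) < p := by exact_mod_cast hp.pos
    have hlim : Tendsto (fun δ : ℝ => (p : ℝ) ^ (-1 + δ)) (𝓝[>] 0) (𝓝 ((p : ℝ) ^ (-1 + (0 : ℝ)))) := by
      have hc : Continuous fun δ : ℝ => (p : ℝ) ^ (-1 + δ) :=
        Real.continuous_const_rpow hp0.ne' |>.comp (continuous_const.add continuous_id)
      exact hc.continuousAt.mono_left nhdsWithin_le_nhds
    have h2 : ‖f p‖ ≤ (p : ℝ) ^ (-1 + (0 : ℝ)) := by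
      refine ge_of_tendsto hlim ?_
      filter_upwards [Ioo_mem_nhdsGT (show (0 : ℝ) < 1 by norm_num)] with δ hδ
      exact key p hp δ hδ.1 hδ.2
    rwa [add_zero, Real.rpow_neg_one, ← one_div] at h2
  obtain ⟨c, hc, hmain⟩ := h f h1 hmul hsum ⟨0, fun p hp _ => Or.inl (key2 p hp)⟩
  obtain ⟨C, M, hC⟩ := hcon (1 / 4) (by norm_num)
  have hlim : Tendsto (fun N : ℕ => C * (N : ℝ) ^ (-(1 / 4 : ℝ))) atTop (𝓝 0) := by
    have h3 : Tendsto (fun N : ℕ => (N : ℝ) ^ (-(1 / 4 : ℝ))) atTop (𝓝 0) :=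
      (tendsto_rpow_neg_atTop (by norm_num)).comp tendsto_natCast_atTop_atTop
    simpa using h3.const_mul C
  obtain ⟨M1, hM1⟩ := (hlim.eventually_lt_const hc).exists_forall_of_atTop
  obtain ⟨N, hN, hN0, hcN⟩ := hmain (max M M1)
  have h4 := hC N ((le_max_left _ _).trans hN) hN0
  have h5 := hM1 N ((le_max_right _ _).trans hN)
  have hNr : (0 : ℝ) < N := by exact_mod_cast hN0
  have h6 : c / Real.sqrt (N : ℝ) ≤ C * (N : ℝ) ^ (-1 + (1 / 4 : ℝ)) := hcN.trans h4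
  rw [div_le_iff₀ (Real.sqrt_pos.2 hNr), Real.sqrt_eq_rpow, mul_assoc,
    ← Real.rpow_add hNr] at h6
  rw [show (-1 + 1 / 4 + 1 / 2 : ℝ) = -(1 / 4) by norm_num] at h6
  linarith

end Pool.Agent.K6.H44.CM
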