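import Pool.Agent.K6.H44.CM.Stm

set_option autoImplicit false

open Filter Topology

namespace Pool.Agent.K6.H44.CM

open scoped ComplexOrder in
open Classical in
theorem t_LAN : S_LAN := by
  intro a D σ τ ha hsum hD hDa s hs T
  set c0 : ℕ → ℂ := fun n => if n ∈ T then a n else 0 with hc0
  have hcs : ∀ z : ℂ, LSeriesSummable c0 z := by
    intro z
    refine summable_of_ne_finset_zero (s := T) fun n hn => ?_
    rw [LSeries.term_def]
    split_ifs
    · rfl
    · simp only [hc0, if_neg hn, zero_div]
  have hcv : ∀ z : ℂ, LSeries c0 z = ∑ n ∈ T, LSeries.term a z n := by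
    intro z
    rw [LSeries, tsum_eq_sum (s := T)]
    · refine Finset.sum_congr rfl fun n hn => ?_
      rw [LSeries.term_def, LSeries.term_def]
      simp only [hc0, if_pos hn]
    · intro n hn
      rw [LSeries.term_def]
      split_ifs
      · rfl
      · simp only [hc0, if_neg hn, zero_div]
  set b : ℕ → ℂ := a - c0 with hb
  have hb0 : (0 : ℕ → ℂ) ≤ b := by
    intro n
    show (0 : ℂ) ≤ a n - c0 n
    by_cases hn : n ∈ T
    · simp only [hc0, if_pos hn, sub_self, le_refl]
    · simp only [hc0, if_neg hn, sub_zero]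
      rw [Complex.nonneg_iff]
      exact ⟨(ha n).1, (ha n).2.symm⟩
  have hbs : ∀ z : ℂ, τ < z.re → LSeriesSummable b z := fun z hz => (hsum z hz).sub (hcs z)
  set G : ℂ → ℂ := fun z => D z - LSeries c0 z with hG
  have hGb : ∀ z : ℂ, τ < z.re → G z = LSeries b z := by
    intro z hz
    rw [hb, LSeries_sub (hsum z hz) (hcs z), hG]
    simp only [hDa z hz]
  have hcd : Differentiable ℂ (LSeries c0) := by
    have h1 : LSeries c0 = fun z => ∑ n ∈ T, LSeries.term a z n := funext hcv
    rw [h1]
    refine Differentiable.fun_sum fun n _ => ?_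
    by_cases hn : n = 0
    · subst hn
      simp
    · have h2 : (fun z : ℂ => LSeries.term a z n) = fun z => a n / (n : ℂ) ^ z := by
        funext z
        rw [LSeries.term_of_ne_zero hn]
      rw [h2]
      refine Differentiable.div (differentiable_const _) ?_ fun z => ?_
      · intro z
        exact DifferentiableAt.const_cpow differentiableAt_id (Or.inl (Nat.cast_ne_zero.2 hn))
      · rw [Ne, Complex.cpow_eq_zero_iff]
        rintro ⟨h3, _⟩
        exact hn (Nat.cast_eq_zero.1 h3)
  have hGd : DifferentiableOn ℂ G {z : ℂ | σ < z.re} := hD.sub hcd.differentiableOn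
  set c : ℝ := max s τ + 1 with hc
  have hcs' : s < c := lt_of_le_of_lt (le_max_left _ _) (lt_add_one _)
  have hcτ : τ < c := lt_of_le_of_lt (le_max_right _ _) (lt_add_one _)
  have habs : LSeries.abscissaOfAbsConv b < c := by
    refine lt_of_le_of_lt (LSeries.abscissaOfAbsConv_le_of_forall_lt_LSeriesSummable
      (x := τ) fun y hy => hbs _ (by simpa using hy)) (by exact_mod_cast hcτ)
  have halt := LSeries.iteratedDeriv_alternating hb0 habs
  have hev : G =ᶠ[𝓝 (c : ℂ)] LSeries b := by
    have ho : IsOpen {z : ℂ | τ < z.re} := isOpen_lt continuous_const Complex.continuous_re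
    filter_upwards [ho.mem_nhds (show (c : ℂ) ∈ {z : ℂ | τ < z.re} by simpa using hcτ)] with z hz
    exact hGb z hz
  have hF : DifferentiableOn ℂ (fun z => G (-z)) (Metric.ball (-(c : ℂ)) (c - σ)) := by
    refine hGd.comp differentiable_neg.differentiableOn ?_
    intro z hz
    rw [Metric.mem_ball, dist_eq_norm] at hz
    show σ < (-z).re
    have h1 := Complex.abs_re_le_norm (z - -(c : ℂ))
    have h2 := le_abs_self (z - -(c : ℂ)).re
    have h3 : (z - -(c : ℂ)).re = z.re + c := by simp
    rw [Complex.neg_re]
    linarith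
  have key := DifferentiableOn.nonneg_of_iteratedDeriv_nonneg hF (fun n => by
    rw [iteratedDeriv_comp_neg, neg_neg, smul_eq_mul, hev.iteratedDeriv_eq]
    exact halt n) (z := -(s : ℂ)) (by
      have : (-(c : ℂ)) = ((-c : ℝ) : ℂ) := by push_cast; rfl
      rw [this]
      have h2 : (-(s : ℂ)) = ((-s : ℝ) : ℂ) := by push_cast; rfl
      rw [h2]
      exact Complex.real_le_real.2 (by linarith)) (by
      rw [Metric.mem_ball, dist_eq_norm]
      have h4 : -(s : ℂ) - -(c : ℂ) = ((c - s : ℝ) : ℂ) := by push_cast; ring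
      rw [h4, Complex.norm_real, Real.norm_of_nonneg (by linarith)]
      linarith)
  simp only [neg_neg] at key
  have h5 := (Complex.nonneg_iff.1 key).1
  rw [hG] at h5
  simp only [hcv, Complex.sub_re, Complex.re_sum] at h5
  linarith

end Pool.Agent.K6.H44.CM
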