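import Pool.Agent.K6.H44.CM.Stm

set_option autoImplicit false

open Filter Topology

namespace Pool.Agent.K6.H44.CM

namespace LOW

lemma step (t : ℝ) (ht : 0 < t) (n : ℕ) (hn : 1 ≤ n) :
    ((n : ℝ) ^ (-(2 * t)) - ((n + 1 : ℕ) : ℝ) ^ (-(2 * t))) / (2 * t) ≤
      (n : ℝ) ^ (-(1 + 2 * t)) := by
  have hn0 : (0 : ℝ) < n := by exact_mod_cast hn
  have h1 : (1 : ℝ) + 1 / n = ((n + 1 : ℕ) : ℝ) / n := by
    push_cast
    field_simp
  have hpos : (0 : ℝ) < 1 + 1 / n := by positivity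
  have h2 : ((n + 1 : ℕ) : ℝ) ^ (-(2 * t)) = (n : ℝ) ^ (-(2 * t)) * (1 + 1 / (n : ℝ)) ^ (-(2 * t)) := by
    rw [← Real.mul_rpow hn0.le hpos.le]
    congr 1
    push_cast
    field_simp
  have h3 : 1 - 2 * t / n ≤ (1 + 1 / (n : ℝ)) ^ (-(2 * t)) := by
    rw [Real.rpow_def_of_pos hpos]
    have h4 := Real.add_one_le_exp (Real.log (1 + 1 / (n : ℝ)) * (-(2 * t)))
    have h5 := Real.log_le_sub_one_of_pos hpos
    have h6 : Real.log (1 + 1 / (n : ℝ)) * (2 * t) ≤ 1 / n * (2 * t) := by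
      apply mul_le_mul_of_nonneg_right _ (by linarith)
      linarith
    have h7 : 2 * t / n = 1 / n * (2 * t) := by ring
    rw [h7]
    linarith
  have hA : 0 < (n : ℝ) ^ (-(2 * t)) := Real.rpow_pos_of_pos hn0 _
  have h8 : (n : ℝ) ^ (-(1 + 2 * t)) = (n : ℝ) ^ (-(2 * t)) / n := by
    rw [show -(1 + 2 * t) = -(2 * t) - 1 by ring, Real.rpow_sub_one hn0.ne']
  rw [div_le_iff₀ (by linarith), h2, h8]
  have h9 := mul_le_mul_of_nonneg_left h3 hA.le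
  have h10 : (n : ℝ) ^ (-(2 * t)) / n * (2 * t) = (n : ℝ) ^ (-(2 * t)) * (2 * t / n) := by ring
  rw [h10]
  linarith

lemma sum_ge (t : ℝ) (ht : 0 < t) (N : ℕ) :
    (1 - ((N + 1 : ℕ) : ℝ) ^ (-(2 * t))) / (2 * t) ≤
      ∑ n ∈ Finset.Icc 1 N, (n : ℝ) ^ (-(1 + 2 * t)) := by
  induction N with
  | zero => simp
  | succ N ih =>
    rw [Finset.sum_Icc_succ_top (by omega)]
    have h := step t ht (N + 1) (by omega)
    have e : (1 - ((N + 1 + 1 : ℕ) : ℝ) ^ (-(2 * t))) / (2 * t) =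
        (1 - ((N + 1 : ℕ) : ℝ) ^ (-(2 * t))) / (2 * t) +
        (((N + 1 : ℕ) : ℝ) ^ (-(2 * t)) - ((N + 1 + 1 : ℕ) : ℝ) ^ (-(2 * t))) / (2 * t) := by
      ring
    rw [e]
    exact add_le_add ih h

end LOW

theorem t_LOW : S_LOW := by
  intro t ht _
  have h1 : Tendsto (fun N : ℕ => ((N + 1 : ℕ) : ℝ) ^ (-(2 * t))) atTop (𝓝 0) :=
    (tendsto_rpow_neg_atTop (by linarith : (0 : ℝ) < 2 * t)).comp
      (tendsto_natCast_atTop_atTop.comp (tendsto_add_atTop_nat 1))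
  obtain ⟨N, hN⟩ := (h1.eventually_le_const (show (0 : ℝ) < 1 / 2 by norm_num)).exists
  refine ⟨N, le_trans ?_ (LOW.sum_ge t ht N)⟩
  have h2 : 1 / (4 * t) = (1 / 2) / (2 * t) := by
    field_simp
    norm_num
  rw [h2]
  apply div_le_div_of_nonneg_right _ (by linarith)
  linarith

end Pool.Agent.K6.H44.CM
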