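import Pool.Agent.K6.H44.CM.Stm

/-!
Piece POS (statement and proof idea by helper44; written by helper78): the coefficients of
`ζ² H H̄` are nonnegative.
-/

set_option autoImplicit false

open Filter Topology

namespace Pool.Agent.K6.H44.CM

namespace POS

open ArithmeticFunction

/-- multiplication by the logarithm -/
noncomputable def Lg (u : ArithmeticFunction ℂ) : ArithmeticFunction ℂ :=
  ⟨fun n => ((Real.log n : ℝ) : ℂ) * u n, by simp⟩

theorem Lg_apply (u : ArithmeticFunction ℂ) (n : ℕ) : Lg u n = ((Real.log n : ℝ) : ℂ) * u n := rfl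

theorem Lg_mul (u v : ArithmeticFunction ℂ) : Lg (u * v) = Lg u * v + u * Lg v := by
  ext n
  simp only [Lg_apply, ArithmeticFunction.add_apply, ArithmeticFunction.mul_apply]
  rw [Finset.mul_sum, ← Finset.sum_add_distrib]
  refine Finset.sum_congr rfl fun x hx => ?_
  have h1 := (Nat.mem_divisorsAntidiagonal.mp hx)
  have hx1 : x.1 ≠ 0 := fun h => h1.2 (by rw [← h1.1, h, zero_mul])
  have hx2 : x.2 ≠ 0 := fun h => h1.2 (by rw [← h1.1, h, mul_zero])
  rw [← h1.1]
  push_cast
  rw [Real.log_mul (by exact_mod_cast hx1) (by exact_mod_cast hx2)]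
  push_cast
  ring

/-- the arithmetic function of a sequence -/
noncomputable def tA (g : ℕ → ℂ) : ArithmeticFunction ℂ := toArithmeticFunction g

theorem tA_apply {g : ℕ → ℂ} {n : ℕ} (hn : n ≠ 0) : tA g n = g n := by
  simp [tA, toArithmeticFunction, hn]

/-- `Λ g` -/
noncomputable def LA (g : ℕ → ℂ) : ArithmeticFunction ℂ :=
  ⟨fun n => ((ArithmeticFunction.vonMangoldt n : ℝ) : ℂ) * tA g n, by simp⟩

theorem LA_apply (g : ℕ → ℂ) (n : ℕ) :
    LA g n = ((ArithmeticFunction.vonMangoldt n : ℝ) : ℂ) * tA g n := rfl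

theorem LA_mul {g : ℕ → ℂ} (hg : ∀ m n : ℕ, 0 < m → 0 < n → g (m * n) = g m * g n) :
    Lg (tA g) = LA g * tA g := by
  ext n
  rcases Nat.eq_zero_or_pos n with rfl | hn
  · simp
  have hs : ∑ x ∈ n.divisorsAntidiagonal, ArithmeticFunction.vonMangoldt x.1 = Real.log n := by
    rw [← ArithmeticFunction.vonMangoldt_sum]
    exact Nat.sum_divisorsAntidiagonal (fun i _ => ArithmeticFunction.vonMangoldt i)
  rw [Lg_apply, ArithmeticFunction.mul_apply, ← hs]
  push_cast
  rw [Finset.sum_mul]
  refine Finset.sum_congr rfl fun x hx => ?_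
  have h1 := (Nat.mem_divisorsAntidiagonal.mp hx)
  have hx1 : x.1 ≠ 0 := fun h => h1.2 (by rw [← h1.1, h, zero_mul])
  have hx2 : x.2 ≠ 0 := fun h => h1.2 (by rw [← h1.1, h, mul_zero])
  rw [LA_apply, tA_apply hn.ne', tA_apply hx1, tA_apply hx2, ← h1.1,
    hg _ _ (Nat.pos_of_ne_zero hx1) (Nat.pos_of_ne_zero hx2)]
  ring

theorem hh_mul {f : ℕ → ℂ} (hf : CMu f) (m n : ℕ) (hm : 0 < m) (hn : 0 < n) :
    hh f (m * n) = hh f m * hh f n := by
  simp only [hh]
  rw [hf.2 m n hm hn]
  push_cast
  ring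

theorem hh_one {f : ℕ → ℂ} (hf : CMu f) : hh f 1 = 1 := by
  simp [hh, hf.1]

theorem hh_pow {f : ℕ → ℂ} (hf : CMu f) {p : ℕ} (hp : 0 < p) (k : ℕ) :
    hh f (p ^ k) = hh f p ^ k := by
  induction k with
  | zero => simp [hh_one hf]
  | succ k ih => rw [pow_succ, pow_succ, hh_mul hf _ _ (pow_pos hp k) hp, ih]

theorem hh_cj {f : ℕ → ℂ} (n : ℕ) : hh (cj f) n = (starRingEnd ℂ) (hh f n) := by
  simp [hh, cj]

theorem cj_CMu {f : ℕ → ℂ} (hf : CMu f) : CMu (cj f) := by
  refine ⟨by simp [cj, hf.1], fun m n hm hn => ?_⟩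
  simp only [cj]
  rw [hf.2 m n hm hn, map_mul]

/-- At a prime power the weight is nonnegative. -/
theorem wt {f : ℕ → ℂ} (hf : CMu f) (hP : Pc f) {d : ℕ} (hd : IsPrimePow d) :
    -1 ≤ (hh f d).re := by
  obtain ⟨p, k, hp, hk, rfl⟩ := (isPrimePow_nat_iff _).mp hd
  have hp0 : 0 < p := hp.pos
  rw [hh_pow hf hp0]
  rcases hP p hp with h | ⟨h1, h2⟩
  · have hn : ‖hh f p‖ ≤ 1 := by
      simp only [hh, norm_mul, Complex.norm_natCast]
      have hp1 : (0 : ℝ) < p := by exact_mod_cast hp0
      calc (p : ℝ) * ‖f p‖ ≤ p * (1 / p) := by gcongr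
        _ = 1 := by field_simp
    have h3 : ‖hh f p ^ k‖ ≤ 1 := by
      rw [norm_pow]; exact pow_le_one₀ (norm_nonneg _) hn
    have h4 := Complex.abs_re_le_norm (hh f p ^ k)
    have h5 := abs_le.mp (h4.trans h3)
    exact h5.1
  · have h3 : hh f p = (((p : ℝ) * (f p).re : ℝ) : ℂ) := by
      apply Complex.ext
      · simp [hh]
      · simp [hh, h1]
    rw [h3, ← Complex.ofReal_pow, Complex.ofReal_re]
    have : 0 ≤ ((p : ℝ) * (f p).re) ^ k := by positivity
    linarith

theorem aa_eq (f : ℕ → ℂ) :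
    aa f = ⇑((tA 1 * tA 1) * (tA (hh f) * tA (hh (cj f)))) := by
  unfold aa
  rw [LSeries.convolution, LSeries.convolution, LSeries.convolution]
  have e : ∀ u : ArithmeticFunction ℂ, toArithmeticFunction (⇑u) = u := fun u => by
    ext n
    by_cases hn : n = 0
    · subst hn; simp [toArithmeticFunction]
    · simp [toArithmeticFunction, hn]
  rw [e, e]
  rfl

theorem rec_a {f : ℕ → ℂ} (hf : CMu f) :
    Lg ((tA 1 * tA 1) * (tA (hh f) * tA (hh (cj f)))) =
      (LA 1 + LA 1 + LA (hh f) + LA (hh (cj f))) *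
        ((tA 1 * tA 1) * (tA (hh f) * tA (hh (cj f)))) := by
  have h1 : Lg (tA 1) = LA 1 * tA 1 := LA_mul (fun m n _ _ => by simp)
  have h2 : Lg (tA (hh f)) = LA (hh f) * tA (hh f) := LA_mul (hh_mul hf)
  have h3 : Lg (tA (hh (cj f))) = LA (hh (cj f)) * tA (hh (cj f)) := LA_mul (hh_mul (cj_CMu hf))
  rw [Lg_mul, Lg_mul, Lg_mul, h1, h2, h3]
  ring

end POS

open POS in
theorem t_POS : S_POS := by
  intro f hf hP
  unfold NN
  rw [aa_eq]
  set A := (tA 1 * tA 1) * (tA (hh f) * tA (hh (cj f))) with hA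
  have hrec := rec_a hf
  rw [← hA] at hrec
  intro n
  induction n using Nat.strong_induction_on with
  | _ n ih =>
    rcases Nat.eq_zero_or_pos n with rfl | hn
    · simp
    rcases Nat.eq_or_lt_of_le (Nat.succ_le_iff.mpr hn) with h1 | h1
    · -- n = 1
      have h1' : n = 1 := h1.symm
      subst h1'
      have e1 : tA 1 1 = (1 : ℂ) := by rw [tA_apply one_ne_zero]; rfl
      have e2 : tA (hh f) 1 = (1 : ℂ) := by rw [tA_apply one_ne_zero, hh_one hf]
      have e3 : tA (hh (cj f)) 1 = (1 : ℂ) := by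
        rw [tA_apply one_ne_zero, hh_one (cj_CMu hf)]
      have : A 1 = 1 := by
        rw [hA]
        simp [ArithmeticFunction.mul_apply, e1, e2, e3]
      rw [this]; simp
    · -- n ≥ 2
      have hn2 : 1 < n := h1
      have hlog : 0 < Real.log n := Real.log_pos (by exact_mod_cast hn2)
      have hE := congrArg (fun u : ArithmeticFunction ℂ => u n) hrec
      simp only [Lg_apply, ArithmeticFunction.mul_apply (f := _ + _)] at hE
      -- each summand is real and nonnegative
      have hterm : ∀ x ∈ n.divisorsAntidiagonal,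
          0 ≤ ((LA 1 + LA 1 + LA (hh f) + LA (hh (cj f))) x.1 * A x.2).re ∧
            ((LA 1 + LA 1 + LA (hh f) + LA (hh (cj f))) x.1 * A x.2).im = 0 := by
        intro x hx
        have h1 := (Nat.mem_divisorsAntidiagonal.mp hx)
        have hx1 : x.1 ≠ 0 := fun h => h1.2 (by rw [← h1.1, h, zero_mul])
        have hx2 : x.2 ≠ 0 := fun h => h1.2 (by rw [← h1.1, h, mul_zero])
        have hsum : (LA 1 + LA 1 + LA (hh f) + LA (hh (cj f))) x.1 =
            ((ArithmeticFunction.vonMangoldt x.1 * (2 + 2 * (hh f x.1).re) : ℝ) : ℂ) := by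
          simp only [ArithmeticFunction.add_apply, LA_apply, tA_apply hx1, Pi.one_apply]
          rw [hh_cj]
          have : (starRingEnd ℂ) (hh f x.1) = 2 * ((hh f x.1).re : ℂ) - hh f x.1 := by
            apply Complex.ext <;> simp; ring
          rw [this]
          push_cast
          ring
        rw [hsum]
        by_cases hL : ArithmeticFunction.vonMangoldt x.1 = 0
        · rw [hL]; simp
        · have hpp := ArithmeticFunction.vonMangoldt_ne_zero_iff.mp hL
          have hw := wt hf hP hpp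
          have hx1' : 1 < x.1 := hpp.one_lt
          have hlt : x.2 < n := by
            rw [← h1.1]
            exact lt_mul_of_one_lt_left (Nat.pos_of_ne_zero hx2) hx1'
          have hi := ih x.2 hlt
          have hr : 0 ≤ ArithmeticFunction.vonMangoldt x.1 * (2 + 2 * (hh f x.1).re) :=
            mul_nonneg ArithmeticFunction.vonMangoldt_nonneg (by linarith)
          rw [Complex.re_ofReal_mul, Complex.im_ofReal_mul, hi.2]
          exact ⟨mul_nonneg hr hi.1, mul_zero _⟩
      have hre : Real.log n * (A n).re = ∑ x ∈ n.divisorsAntidiagonal,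
          ((LA 1 + LA 1 + LA (hh f) + LA (hh (cj f))) x.1 * A x.2).re := by
        have := congrArg Complex.re hE
        rw [Complex.re_ofReal_mul, Complex.re_sum] at this
        exact this
      have him : Real.log n * (A n).im = ∑ x ∈ n.divisorsAntidiagonal,
          ((LA 1 + LA 1 + LA (hh f) + LA (hh (cj f))) x.1 * A x.2).im := by
        have := congrArg Complex.im hE
        rw [Complex.im_ofReal_mul, Complex.im_sum] at this
        exact this
      constructor
      · have h2 : 0 ≤ Real.log n * (A n).re := by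
          rw [hre]; exact Finset.sum_nonneg fun x hx => (hterm x hx).1
        exact nonneg_of_mul_nonneg_right h2 hlog
      · rw [Finset.sum_eq_zero fun x hx => (hterm x hx).2] at him
        exact (mul_eq_zero.mp him).resolve_left hlog.ne'

end Pool.Agent.K6.H44.CM
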