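import Pool.Agent.K6.H44.CM.Stm

/-!
# Piece RE2: removing finitely many exceptional primes
-/

set_option autoImplicit false

open Filter Topology

namespace Pool.Agent.K6.H44.CM

theorem t_RE2 (h : S_RED) : S_RE2 := by
  intro f hf hs hP
  obtain ⟨P, hP⟩ := hP
  have key : ∀ k : ℕ, ∃ g : ℕ → ℂ, CMu g ∧ Sml g ∧ (∀ q : ℕ, q.Prime → q < k → g q = 0) ∧
      (∀ q : ℕ, q.Prime → k ≤ q → g q = f q) := by
    intro k
    induction k with
    | zero => exact ⟨f, hf, hs, fun q _ hq => absurd hq (Nat.not_lt_zero q), fun q _ _ => rfl⟩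
    | succ k ih =>
      obtain ⟨g, hg1, hg2, hg3, hg4⟩ := ih
      by_cases hk : k.Prime
      · obtain ⟨g', h1, h2, h3, h4⟩ := h g k hk hg1 hg2
        refine ⟨g', h1, h2, fun q hq hqk => ?_, fun q hq hqk => ?_⟩
        · rcases Nat.lt_succ_iff_lt_or_eq.1 hqk with h5 | h5
          · rw [h4 q hq h5.ne, hg3 q hq h5]
          · rw [h5, h3]
        · have h5 : q ≠ k := by omega
          rw [h4 q hq h5, hg4 q hq (by omega)]
      · refine ⟨g, hg1, hg2, fun q hq hqk => ?_, fun q hq hqk => hg4 q hq (by omega)⟩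
        have h5 : q ≠ k := fun h => hk (h ▸ hq)
        exact hg3 q hq (by omega)
  obtain ⟨g, hg1, hg2, hg3, hg4⟩ := key P
  refine ⟨g, hg1, hg2, fun p hp => ?_⟩
  by_cases hpP : p < P
  · left
    rw [hg3 p hp hpP, norm_zero]
    positivity
  · rw [hg4 p hp (by omega)]
    exact hP p hp (by omega)

end Pool.Agent.K6.H44.CM
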