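import Pool.Agent.K6.H44.CM.Stm

/-!
# Piece RED: setting `f` to zero at one prime
-/

set_option autoImplicit false

open Filter Topology

namespace Pool.Agent.K6.H44.CM

namespace RED

/-- `f` with the value at the prime `p` replaced by `0` -/
noncomputable def gg (f : ℕ → ℂ) (p : ℕ) : ℕ → ℂ := fun n => if p ∣ n then 0 else f n

lemma gg_cmu (f : ℕ → ℂ) (p : ℕ) (hp : p.Prime) (hf : CMu f) : CMu (gg f p) := by
  refine ⟨?_, fun m n hm hn => ?_⟩
  · unfold gg
    rw [if_neg (fun h => hp.one_lt.ne' (Nat.dvd_one.1 h)), hf.1]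
  · unfold gg
    by_cases h1 : p ∣ m
    · rw [if_pos h1, if_pos (h1.mul_right n), zero_mul]
    · by_cases h2 : p ∣ n
      · rw [if_pos h2, if_pos (h2.mul_left m), mul_zero]
      · rw [if_neg h1, if_neg h2, if_neg (fun h => ?_), hf.2 m n hm hn]
        rcases hp.dvd_mul.1 h with h3 | h3
        · exact h1 h3
        · exact h2 h3

lemma gg_sum (f : ℕ → ℂ) (p : ℕ) (hp : p.Prime) (hf : CMu f) (N : ℕ) :
    S (gg f p) N = S f N - f p * S f (N / p) := by
  unfold S gg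
  have h1 : ∑ n ∈ Finset.Icc 1 N, (if p ∣ n then (0 : ℂ) else f n) =
      ∑ n ∈ Finset.Icc 1 N, f n - ∑ n ∈ (Finset.Icc 1 N).filter (fun n => p ∣ n), f n := by
    rw [Finset.sum_filter, ← Finset.sum_sub_distrib]
    apply Finset.sum_congr rfl
    intro n _
    split_ifs <;> simp
  rw [h1]
  congr 1
  rw [Finset.mul_sum]
  symm
  apply Finset.sum_nbij' (fun m => p * m) (fun n => n / p)
  · intro m hm
    rw [Finset.mem_Icc] at hm
    rw [Finset.mem_filter, Finset.mem_Icc]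
    refine ⟨⟨Nat.one_le_iff_ne_zero.2 (Nat.mul_ne_zero hp.pos.ne' (by omega)), ?_⟩,
      Dvd.intro _ rfl⟩
    calc p * m ≤ p * (N / p) := Nat.mul_le_mul_left p hm.2
      _ ≤ N := Nat.mul_div_le N p
  · intro n hn
    rw [Finset.mem_filter, Finset.mem_Icc] at hn
    rw [Finset.mem_Icc]
    refine ⟨?_, Nat.div_le_div_right hn.1.2⟩
    have := Nat.le_of_dvd (by omega) hn.2
    exact Nat.div_pos this hp.pos
  · intro m _
    exact Nat.mul_div_cancel_left m hp.pos
  · intro n hn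
    rw [Finset.mem_filter] at hn
    exact Nat.mul_div_cancel' hn.2
  · intro m hm
    rw [Finset.mem_Icc] at hm
    exact (hf.2 p m hp.pos (by omega)).symm

lemma ratio (p N : ℕ) (hp : p.Prime) (f : ℕ → ℂ) :
    Real.sqrt (N : ℝ) * ‖S f (N / p)‖ ≤
      Real.sqrt (2 * p : ℝ) * (Real.sqrt ((N / p : ℕ) : ℝ) * ‖S f (N / p)‖) := by
  by_cases h : N / p = 0
  · rw [h]
    simp [S]
  · have h1 : N ≤ 2 * p * (N / p) := by
      have h2 := Nat.div_add_mod N p
      have h3 := Nat.mod_lt N hp.pos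
      have h4 : p ≤ p * (N / p) := Nat.le_mul_of_pos_right p (Nat.pos_of_ne_zero h)
      nlinarith
    rw [← mul_assoc]
    apply mul_le_mul_of_nonneg_right _ (norm_nonneg _)
    rw [← Real.sqrt_mul (by positivity)]
    apply Real.sqrt_le_sqrt
    exact_mod_cast h1

lemma gg_sml (f : ℕ → ℂ) (p : ℕ) (hp : p.Prime) (hf : CMu f) (hs : Sml f) : Sml (gg f p) := by
  unfold Sml at hs ⊢
  have h1 : Tendsto (fun N : ℕ => Real.sqrt ((N / p : ℕ) : ℝ) * ‖S f (N / p)‖) atTop (𝓝 0) :=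
    hs.comp (Nat.tendsto_div_const_atTop hp.pos.ne')
  have h2 : Tendsto (fun N : ℕ => Real.sqrt (N : ℝ) * ‖S f N‖ +
      ‖f p‖ * (Real.sqrt (2 * p : ℝ) * (Real.sqrt ((N / p : ℕ) : ℝ) * ‖S f (N / p)‖)))
      atTop (𝓝 0) := by
    have h3 := hs.add ((h1.const_mul (Real.sqrt (2 * p : ℝ))).const_mul ‖f p‖)
    simpa using h3
  refine squeeze_zero (fun N => by positivity) (fun N => ?_) h2
  rw [gg_sum f p hp hf N]
  calc Real.sqrt (N : ℝ) * ‖S f N - f p * S f (N / p)‖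
      ≤ Real.sqrt (N : ℝ) * (‖S f N‖ + ‖f p * S f (N / p)‖) := by
        gcongr
        exact norm_sub_le _ _
    _ = Real.sqrt (N : ℝ) * ‖S f N‖ + ‖f p‖ * (Real.sqrt (N : ℝ) * ‖S f (N / p)‖) := by
        rw [norm_mul]; ring
    _ ≤ _ := add_le_add le_rfl (mul_le_mul_of_nonneg_left (ratio p N hp f) (norm_nonneg _))

end RED

theorem t_RED : S_RED := by
  intro f p hp hf hs
  refine ⟨RED.gg f p, RED.gg_cmu f p hp hf, RED.gg_sml f p hp hf hs, ?_, fun q hq hqp => ?_⟩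
  · unfold RED.gg
    rw [if_pos (dvd_refl p)]
  · unfold RED.gg
    rw [if_neg (fun h => hqp ((Nat.prime_dvd_prime_iff_eq hp hq).1 h).symm)]

end Pool.Agent.K6.H44.CM
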