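import Mathlib

/-!
# Completely multiplicative functions with sum zero: definitions and statements of the pieces

`S f N` are the partial sums of `f`, `hh f n = n f(n)`.  If `√N S f N → 0`, the Dirichlet series of
`hh f` continues to `Re s > 1/2` (as `Ph f`), vanishes at `1`, and `ζ² Ph f Ph (conj f)` has
nonnegative coefficients `aa f`; Landau's argument and the Euler product give
`ζ(s)² |Ph f s|² ≥ ζ(2s)²` for real `s > 1/2`, a contradiction as `s → 1/2`.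
-/

set_option autoImplicit false

open Filter Topology

namespace Pool.Agent.K6.H44.CM

/-- partial sums -/
noncomputable def S (f : ℕ → ℂ) (N : ℕ) : ℂ := ∑ n ∈ Finset.Icc 1 N, f n

/-- completely multiplicative on the positive integers -/
def CMu (f : ℕ → ℂ) : Prop := f 1 = 1 ∧ ∀ m n : ℕ, 0 < m → 0 < n → f (m * n) = f m * f n

/-- `S f N = o(N^(-1/2))` -/
def Sml (f : ℕ → ℂ) : Prop := Tendsto (fun N : ℕ => Real.sqrt (N : ℝ) * ‖S f N‖) atTop (𝓝 0)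

/-- the elementary bound -/
def Bd (f : ℕ → ℂ) : Prop := ∀ n : ℕ, 0 < n → ‖f n‖ ≤ 1 / Real.sqrt (n : ℝ)

/-- the condition at the primes -/
def Pc (f : ℕ → ℂ) : Prop :=
  ∀ p : ℕ, p.Prime → ‖f p‖ ≤ 1 / (p : ℝ) ∨ ((f p).im = 0 ∧ 0 ≤ (f p).re)

noncomputable def hh (f : ℕ → ℂ) : ℕ → ℂ := fun n => (n : ℂ) * f n

noncomputable def cj (f : ℕ → ℂ) : ℕ → ℂ := fun n => (starRingEnd ℂ) (f n)

/-- coefficients of `ζ(s)² H(s) H̄(s)` -/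
noncomputable def aa (f : ℕ → ℂ) : ℕ → ℂ :=
  LSeries.convolution (LSeries.convolution 1 1) (LSeries.convolution (hh f) (hh (cj f)))

def NN (a : ℕ → ℂ) : Prop := ∀ n, 0 ≤ (a n).re ∧ (a n).im = 0

/-- the continuation of the Dirichlet series of `hh f` -/
noncomputable def Ph (f : ℕ → ℂ) (s : ℂ) : ℂ :=
  ∑' n : ℕ, S f (n + 1) * (((n + 1 : ℕ) : ℂ) ^ (1 - s) - ((n + 2 : ℕ) : ℂ) ^ (1 - s))

open Classical in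
/-- restriction to the `N`-smooth numbers -/
noncomputable def sm (N : ℕ) (u : ℕ → ℂ) : ℕ → ℂ := fun n => if n ∈ Nat.smoothNumbers N then u n else 0

/-! ### pieces -/

def S_BND : Prop := ∀ f : ℕ → ℂ, CMu f → Sml f → Bd f

def S_DIF : Prop := ∀ (m : ℕ) (w : ℂ), 0 < m → w.re ≤ 1 →
  ‖(m : ℂ) ^ w - ((m + 1 : ℕ) : ℂ) ^ w‖ ≤ ‖w‖ * (m : ℝ) ^ (w.re - 1)

/-- from `S_DIF` -/
def S_ANA : Prop := ∀ f : ℕ → ℂ, Sml f → DifferentiableOn ℂ (Ph f) {s : ℂ | 1 / 2 < s.re}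

/-- from `S_DIF` -/
def S_EQ : Prop := ∀ f : ℕ → ℂ, Sml f → Bd f → ∀ s : ℂ, 3 / 2 < s.re →
  LSeriesSummable (hh f) s ∧ Ph f s = LSeries (hh f) s

/-- from `S_DIF` -/
def S_UPB : Prop := ∀ f : ℕ → ℂ, Sml f → ∀ ε : ℝ, 0 < ε → ∃ C : ℝ, ∀ t : ℝ, 0 < t → t < 1 / 2 →
  ‖Ph f ((1 / 2 + t : ℝ) : ℂ)‖ ≤ C + ε / t

def S_POS : Prop := ∀ f : ℕ → ℂ, CMu f → Pc f → NN (aa f)

def S_LAN : Prop := ∀ (a : ℕ → ℂ) (D : ℂ → ℂ) (σ τ : ℝ), NN a →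
  (∀ s : ℂ, τ < s.re → LSeriesSummable a s) → DifferentiableOn ℂ D {s : ℂ | σ < s.re} →
  (∀ s : ℂ, τ < s.re → D s = LSeries a s) →
  ∀ s : ℝ, σ < s → ∀ T : Finset ℕ, ∑ n ∈ T, (LSeries.term a (s : ℂ) n).re ≤ (D (s : ℂ)).re

def S_EU1 : Prop := ∀ (u : ℕ → ℂ) (s : ℝ), u 1 = 1 →
  (∀ m n : ℕ, 0 < m → 0 < n → u (m * n) = u m * u n) →
  (∀ p : ℕ, p.Prime → ‖u p‖ < (p : ℝ) ^ s) → ∀ N : ℕ,
  LSeriesSummable (sm N u) (s : ℂ) ∧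
    LSeries (sm N u) (s : ℂ) = ∏ p ∈ Nat.primesBelow N, (1 - u p * (p : ℂ) ^ (-(s : ℂ)))⁻¹

/-- from `S_EU1` -/
def S_EU2 : Prop := ∀ f : ℕ → ℂ, CMu f → Bd f → Pc f → NN (aa f) → ∀ s : ℝ, 1 / 2 < s →
  ∀ B : ℝ, (∀ T : Finset ℕ, ∑ n ∈ T, (LSeries.term (aa f) (s : ℂ) n).re ≤ B) →
  ∀ N : ℕ, (∑ n ∈ Finset.Icc 1 N, (n : ℝ) ^ (-(2 * s))) ^ 2 ≤ B

def S_LOW : Prop := ∀ t : ℝ, 0 < t → t < 1 → ∃ N : ℕ,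
  1 / (4 * t) ≤ ∑ n ∈ Finset.Icc 1 N, (n : ℝ) ^ (-(1 + 2 * t))

def S_ZET : Prop := ∃ Z : ℂ → ℂ, Differentiable ℂ Z ∧ ∀ s : ℂ, s ≠ 1 → Z s = (s - 1) * riemannZeta s

def S_RED : Prop := ∀ (f : ℕ → ℂ) (p : ℕ), p.Prime → CMu f → Sml f →
  ∃ g : ℕ → ℂ, CMu g ∧ Sml g ∧ g p = 0 ∧ ∀ q : ℕ, q.Prime → q ≠ p → g q = f q

/-- from `S_RED`: finitely many exceptional primes -/
def S_RE2 : Prop := ∀ f : ℕ → ℂ, CMu f → Sml f →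
  (∃ P : ℕ, ∀ p : ℕ, p.Prime → P ≤ p → ‖f p‖ ≤ 1 / (p : ℝ) ∨ ((f p).im = 0 ∧ 0 ≤ (f p).re)) →
  ∃ g : ℕ → ℂ, CMu g ∧ Sml g ∧ Pc g

/-- the main theorem -/
def S_MAIN : Prop := ∀ f : ℕ → ℂ, f 1 = 1 →
  (∀ m n : ℕ, 0 < m → 0 < n → f (m * n) = f m * f n) →
  Tendsto (fun N : ℕ => ∑ n ∈ Finset.range N, f (n + 1)) atTop (𝓝 0) →
  (∃ P : ℕ, ∀ p : ℕ, p.Prime → P ≤ p → ‖f p‖ ≤ 1 / (p : ℝ) ∨ ((f p).im = 0 ∧ 0 ≤ (f p).re)) →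
  ∃ c : ℝ, 0 < c ∧ ∀ M : ℕ, ∃ N : ℕ, M ≤ N ∧ 0 < N ∧
    c / Real.sqrt (N : ℝ) ≤ ‖∑ n ∈ Finset.Icc 1 N, f n‖

/-- from `S_MAIN`: a bound for all completely multiplicative functions with sum zero -/
def S_GEN : Prop := ∀ f : ℕ → ℂ, f 1 = 1 →
  (∀ m n : ℕ, 0 < m → 0 < n → f (m * n) = f m * f n) →
  Tendsto (fun N : ℕ => ∑ n ∈ Finset.range N, f (n + 1)) atTop (𝓝 0) →
  ∃ δ : ℝ, 0 < δ ∧ ∀ (C : ℝ) (M : ℕ), ∃ N : ℕ, M ≤ N ∧ 0 < N ∧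
    C * (N : ℝ) ^ (-1 + δ) < ‖∑ n ∈ Finset.Icc 1 N, f n‖

end Pool.Agent.K6.H44.CM
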