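import Pool.Agent.K6.H44.CM.Stm

/-!
# Piece UPB: `Ph f (1/2 + t) = o(1/t)`
-/

set_option autoImplicit false

open Filter Topology

namespace Pool.Agent.K6.H44.CM

namespace UPB

lemma term_bd (hd : S_DIF) (f : ℕ → ℂ) (C : ℝ) (n : ℕ)
    (hb : ‖S f (n + 1)‖ ≤ C * ((n : ℝ) + 1) ^ (-(1 / 2) : ℝ)) (s : ℂ) (hs : 0 ≤ s.re) :
    ‖S f (n + 1) * (((n + 1 : ℕ) : ℂ) ^ (1 - s) - ((n + 2 : ℕ) : ℂ) ^ (1 - s))‖ ≤
      C * ‖1 - s‖ * ((n : ℝ) + 1) ^ (-(1 / 2) - s.re) := by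
  have h1 := hd (n + 1) (1 - s) (Nat.succ_pos n) (by simp; exact hs)
  rw [norm_mul]
  have h2 : ((1 - s).re - 1) = - s.re := by simp
  rw [h2] at h1
  have h3 : (0 : ℝ) < (n : ℝ) + 1 := by positivity
  have h4 : 0 ≤ C * ((n : ℝ) + 1) ^ (-(1 / 2) : ℝ) := le_trans (norm_nonneg _) hb
  calc _ ≤ (C * ((n : ℝ) + 1) ^ (-(1 / 2) : ℝ)) *
        (‖1 - s‖ * ((n + 1 : ℕ) : ℝ) ^ (- s.re)) := by
        apply mul_le_mul hb h1 (norm_nonneg _) h4
    _ = _ := by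
        push_cast
        rw [sub_eq_add_neg (-(1 / 2) : ℝ), Real.rpow_add h3]
        ring

lemma conv (f : ℕ → ℂ) (C : ℝ) (n : ℕ) (h : Real.sqrt ((n + 1 : ℕ) : ℝ) * ‖S f (n + 1)‖ ≤ C) :
    ‖S f (n + 1)‖ ≤ C * ((n : ℝ) + 1) ^ (-(1 / 2) : ℝ) := by
  have h2 : 0 < ((n : ℝ) + 1) := by positivity
  rw [Real.rpow_neg h2.le, ← Real.sqrt_eq_rpow, ← div_eq_mul_inv,
    le_div_iff₀ (Real.sqrt_pos.2 h2)]
  push_cast at h
  linarith [mul_comm ‖S f (n + 1)‖ (Real.sqrt ((n : ℝ) + 1))]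

/-- one telescoping step -/
lemma tele (t : ℝ) (ht : 0 < t) (ht1 : t ≤ 1) (n : ℕ) :
    t * ((n : ℝ) + 2) ^ (-(1 + t)) ≤ ((n : ℝ) + 1) ^ (-t) - ((n : ℝ) + 2) ^ (-t) := by
  have h1 : (0 : ℝ) < (n : ℝ) + 1 := by positivity
  have h2 : (0 : ℝ) < (n : ℝ) + 2 := by positivity
  have h3 : (((n : ℝ) + 1) / (n + 2)) ^ t ≤ 1 + t * (-(1 / ((n : ℝ) + 2))) := by
    have h4 : ((n : ℝ) + 1) / (n + 2) = 1 + (-(1 / ((n : ℝ) + 2))) := by
      field_simp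
      ring
    rw [h4]
    apply rpow_one_add_le_one_add_mul_self _ ht.le ht1
    rw [neg_le_neg_iff, div_le_one h2]
    linarith [(Nat.cast_nonneg n : (0 : ℝ) ≤ n)]
  rw [Real.div_rpow h1.le h2.le] at h3
  have hA : 0 < ((n : ℝ) + 1) ^ t := Real.rpow_pos_of_pos h1 t
  have hB : 0 < ((n : ℝ) + 2) ^ t := Real.rpow_pos_of_pos h2 t
  have hAB : ((n : ℝ) + 1) ^ t ≤ ((n : ℝ) + 2) ^ t :=
    Real.rpow_le_rpow h1.le (by linarith) ht.le
  rw [Real.rpow_neg h2.le, Real.rpow_neg h1.le, Real.rpow_neg h2.le, Real.rpow_add h2,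
    Real.rpow_one]
  set A := ((n : ℝ) + 1) ^ t
  set B := ((n : ℝ) + 2) ^ t
  set x := (n : ℝ) + 2
  rw [div_le_iff₀ hB] at h3
  have h5 : A⁻¹ - B⁻¹ = (B - A) / (A * B) := by
    field_simp
  have h6 : t * (x * B)⁻¹ = (t * (1 / x) * A) / (A * B) := by
    field_simp
  rw [h5, h6]
  apply div_le_div_of_nonneg_right _ (by positivity)
  have h7 : t * (1 / x) * A ≤ t * (1 / x) * B := by gcongr
  nlinarith

lemma part (t : ℝ) (ht : 0 < t) (ht1 : t ≤ 1) (N : ℕ) :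
    t * ∑ n ∈ Finset.range N, ((n : ℝ) + 2) ^ (-(1 + t)) ≤ 1 - ((N : ℝ) + 1) ^ (-t) := by
  induction N with
  | zero => simp
  | succ N ih =>
    rw [Finset.sum_range_succ, mul_add]
    have := tele t ht ht1 N
    push_cast
    rw [add_assoc (N : ℝ) 1 1, one_add_one_eq_two]
    linarith

lemma summ (a : ℝ) (ha : 1 < a) : Summable (fun n : ℕ => ((n : ℝ) + 1) ^ (-a)) := by
  have h1 : Summable (fun n : ℕ => (n : ℝ) ^ (-a)) := Real.summable_nat_rpow.2 (by linarith)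
  have h2 := (summable_nat_add_iff 1).2 h1
  refine h2.congr fun n => ?_
  push_cast
  rfl

lemma tsum_le (t : ℝ) (ht : 0 < t) (ht1 : t ≤ 1) :
    ∑' n : ℕ, ((n : ℝ) + 1) ^ (-(1 + t)) ≤ 1 + 1 / t := by
  apply (summ (1 + t) (by linarith)).tsum_le_of_sum_range_le
  intro N
  cases N with
  | zero => simp; positivity
  | succ N =>
    rw [Finset.sum_range_succ']
    have h1 := part t ht ht1 N
    have h2 : 0 < ((N : ℝ) + 1) ^ (-t) := Real.rpow_pos_of_pos (by positivity) _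
    have h3 : ∑ n ∈ Finset.range N, ((n : ℝ) + 2) ^ (-(1 + t)) ≤ 1 / t := by
      rw [le_div_iff₀ ht]
      linarith [mul_comm t (∑ n ∈ Finset.range N, ((n : ℝ) + 2) ^ (-(1 + t)))]
    have h4 : ∑ k ∈ Finset.range N, (((k + 1 : ℕ) : ℝ) + 1) ^ (-(1 + t)) =
        ∑ n ∈ Finset.range N, ((n : ℝ) + 2) ^ (-(1 + t)) := by
      apply Finset.sum_congr rfl
      intro k _
      push_cast
      rw [add_assoc, one_add_one_eq_two]
    rw [h4]
    simp only [CharP.cast_eq_zero, zero_add, Real.one_rpow]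
    linarith

end UPB

theorem t_UPB (h : S_DIF) : S_UPB := by
  intro f hf ε hε
  obtain ⟨C0, hC0⟩ := hf.bddAbove_range
  have hC0' : ∀ n : ℕ, Real.sqrt ((n + 1 : ℕ) : ℝ) * ‖S f (n + 1)‖ ≤ C0 :=
    fun n => hC0 ⟨n + 1, rfl⟩
  have hC0n : 0 ≤ C0 := le_trans (by positivity) (hC0' 0)
  have hev : ∀ᶠ N : ℕ in atTop, Real.sqrt (N : ℝ) * ‖S f N‖ < ε / 2 :=
    hf.eventually_lt_const (by positivity)
  obtain ⟨M, hM⟩ := eventually_atTop.1 hev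
  refine ⟨C0 * M + ε / 2, fun t ht ht2 => ?_⟩
  -- the majorant
  have hs1 := UPB.summ (1 + t) (by linarith)
  have hn1 : ‖(1 : ℂ) - ((1 / 2 + t : ℝ) : ℂ)‖ ≤ 1 := by
    have : (1 : ℂ) - ((1 / 2 + t : ℝ) : ℂ) = ((1 / 2 - t : ℝ) : ℂ) := by
      push_cast; ring
    rw [this, Complex.norm_real, Real.norm_eq_abs, abs_le]
    constructor <;> linarith
  set v : ℕ → ℝ := fun n => (if n < M then C0 else 0) + ε / 2 * ((n : ℝ) + 1) ^ (-(1 + t)) with hv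
  have hfin : HasSum (fun n : ℕ => if n < M then C0 else 0) (C0 * M) := by
    have h1 : HasSum (fun n : ℕ => if n < M then C0 else 0)
        (∑ n ∈ Finset.range M, if n < M then C0 else 0) := by
      apply hasSum_sum_of_ne_finset_zero
      intro b hb
      rw [Finset.mem_range] at hb
      rw [if_neg hb]
    have h2 : (∑ n ∈ Finset.range M, if n < M then C0 else 0) = C0 * M := by
      rw [Finset.sum_congr rfl (fun n hn => if_pos (Finset.mem_range.1 hn)), Finset.sum_const,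
        Finset.card_range, nsmul_eq_mul, mul_comm]
    rwa [h2] at h1
  have hvs : HasSum v (C0 * M + ε / 2 * ∑' n : ℕ, ((n : ℝ) + 1) ^ (-(1 + t))) :=
    hfin.add (hs1.hasSum.mul_left _)
  have hterm : ∀ n : ℕ, ‖S f (n + 1) * (((n + 1 : ℕ) : ℂ) ^ (1 - ((1 / 2 + t : ℝ) : ℂ)) -
      ((n + 2 : ℕ) : ℂ) ^ (1 - ((1 / 2 + t : ℝ) : ℂ)))‖ ≤ v n := by
    intro n
    have hre : (((1 / 2 + t : ℝ) : ℂ)).re = 1 / 2 + t := Complex.ofReal_re _
    have hpow : ((n : ℝ) + 1) ^ (-(1 / 2) - (1 / 2 + t)) = ((n : ℝ) + 1) ^ (-(1 + t)) := by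
      congr 1; ring
    have hnn : (0 : ℝ) ≤ ((n : ℝ) + 1) ^ (-(1 + t)) := by positivity
    by_cases hn : n < M
    · have h1 := UPB.term_bd h f C0 n (UPB.conv f C0 n (hC0' n)) ((1 / 2 + t : ℝ) : ℂ)
        (by rw [hre]; linarith)
      rw [hre, hpow] at h1
      refine h1.trans ?_
      rw [hv]
      simp only [if_pos hn]
      have h2 : ((n : ℝ) + 1) ^ (-(1 + t)) ≤ 1 := by
        apply Real.rpow_le_one_of_one_le_of_nonpos
        · linarith [(Nat.cast_nonneg n : (0 : ℝ) ≤ n)]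
        · linarith
      have h3 : C0 * ‖(1 : ℂ) - ((1 / 2 + t : ℝ) : ℂ)‖ * ((n : ℝ) + 1) ^ (-(1 + t)) ≤
          C0 * 1 * 1 := by gcongr
      have h4 : 0 ≤ ε / 2 * ((n : ℝ) + 1) ^ (-(1 + t)) := by positivity
      linarith
    · have h1 := UPB.term_bd h f (ε / 2) n (UPB.conv f (ε / 2) n (hM (n + 1) (by omega)).le)
        ((1 / 2 + t : ℝ) : ℂ) (by rw [hre]; linarith)
      rw [hre, hpow] at h1
      refine h1.trans ?_
      rw [hv]
      simp only [if_neg hn]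
      have h3 : ε / 2 * ‖(1 : ℂ) - ((1 / 2 + t : ℝ) : ℂ)‖ * ((n : ℝ) + 1) ^ (-(1 + t)) ≤
          ε / 2 * 1 * ((n : ℝ) + 1) ^ (-(1 + t)) := by gcongr
      linarith
  have h1 : ‖Ph f ((1 / 2 + t : ℝ) : ℂ)‖ ≤ C0 * M + ε / 2 * ∑' n : ℕ, ((n : ℝ) + 1) ^ (-(1 + t)) :=
    tsum_of_norm_bounded hvs hterm
  have h2 := UPB.tsum_le t ht (by linarith)
  calc ‖Ph f ((1 / 2 + t : ℝ) : ℂ)‖
      ≤ C0 * M + ε / 2 * ∑' n : ℕ, ((n : ℝ) + 1) ^ (-(1 + t)) := h1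
    _ ≤ C0 * M + ε / 2 * (1 + 1 / t) := by gcongr
    _ ≤ C0 * M + ε / 2 + ε / t := by
        have : 0 < ε / t := by positivity
        have h5 : ε / 2 * (1 + 1 / t) = ε / 2 + (ε / t) / 2 := by ring
        rw [h5]
        linarith

end Pool.Agent.K6.H44.CM
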