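import Pool.Agent.K6.H44.CM.Stm

set_option autoImplicit false

open Filter Topology

namespace Pool.Agent.K6.H44.CM

theorem t_ZET : S_ZET := by
  refine ⟨DirichletCharacter.LFunctionTrivChar₁ 1,
    DirichletCharacter.differentiable_LFunctionTrivChar₁ 1, fun s hs => ?_⟩
  rw [DirichletCharacter.LFunctionTrivChar₁, Function.update_of_ne hs]
  simp only [DirichletCharacter.LFunctionTrivChar, DirichletCharacter.LFunction_modOne_eq]

end Pool.Agent.K6.H44.CM
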